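import Pool.Agent.Work.MP_70e905_nt.Pol.Cor

/-!
# Pol.Final : the Polignac numbers, from `ClusterPlus 4`
-/

namespace PoolPol

open Finset PoolQ4

/-- `h` is the difference `p_{n+1} - p_n` of consecutive primes for infinitely many `n`. -/
def Polignac (h : ℕ) : Prop :=
  {n : ℕ | Nat.nth Nat.Prime (n + 1) = Nat.nth Nat.Prime n + h}.Infinite

theorem cluP_polignac {K : ℕ} (H : ClusterPlus K) : ∃ L : ℕ, 0 < L ∧ CluP K L Polignac := by
  obtain ⟨L, hL, h⟩ := cluP_of_clusterPlus H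
  refine ⟨L, hL, fun g hg hadm => ?_⟩
  obtain ⟨s, t, hst, hP⟩ := h g hg hadm
  exact ⟨s, t, hst, (pol_iff _).1 hP⟩

open Classical in
/-- Weighted form, modulus `primorial D`, `D ≥ 5`. -/
theorem polignac_weighted (H : ClusterPlus 4) (D : ℕ) (hD : 5 ≤ D) (ε : ℝ) (hε : 0 < ε) :
    ∃ ℓ₀ : ℕ, ∀ X ℓ : ℕ, ℓ₀ ≤ ℓ →
      (1 / 4 - ε) * ∑ h ∈ Ioc X (X + ℓ), (wq (primorial D) h : ℝ) ≤
        ∑ h ∈ (Ioc X (X + ℓ)).filter Polignac, (wq (primorial D) h : ℝ) := by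
  obtain ⟨L, _, hL⟩ := cluP_polignac H
  have h := weighted 4 L (by norm_num) Polignac hL D hD ε hε
  simpa using h

open Classical in
/-- In every long interval at least `7/90 - ε` of the integers (`7/45 - 2 ε` of the even integers)
are differences of consecutive primes infinitely often. -/
theorem polignac_density (H : ClusterPlus 4) (ε : ℝ) (hε : 0 < ε) :
    ∃ ℓ₀ : ℕ, ∀ X ℓ : ℕ, ℓ₀ ≤ ℓ →
      (7 / 90 - ε) * (ℓ : ℝ) ≤ (((Ioc X (X + ℓ)).filter Polignac).card : ℝ) := by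
  obtain ⟨L, _, hL⟩ := cluP_polignac H
  exact unweighted L Polignac hL ε hε

end PoolPol
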