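import Pool.Agent.Work.MP_70e905_nt.Pol.Unif
import Pool.Agent.Work.MP_70e905_nt.Pol.Final

/-!
# Pol.Scale : the cluster property away from the prime divisors of `n`, at every scale
-/

set_option autoImplicit false

namespace PoolPol

open Finset PoolQ4

/-- The cluster property for families which miss a class modulo every prime not dividing `n`. -/
def CluS (L n : ℕ) (P : ℕ → Prop) : Prop :=
  ∀ h : Fin (3 + 1) × Fin L → ℕ, Function.Injective h →
    (∀ p : ℕ, p.Prime → p ∣ n ∨ ∃ v : ℕ, ∀ u, ¬ p ∣ v + h u) →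
    ∃ s t, s.1 < t.1 ∧ P (Nat.dist (h s) (h t))

theorem adm_mul {L n : ℕ} {h : Fin (3 + 1) × Fin L → ℕ}
    (hadm : ∀ p : ℕ, p.Prime → p ∣ n ∨ ∃ v : ℕ, ∀ u, ¬ p ∣ v + h u) :
    Admissible (Finset.univ.image fun u => n * h u) := by
  classical
  intro p hp
  by_cases hpn : p ∣ n
  · refine ⟨1, fun a ha hd => ?_⟩
    obtain ⟨u, -, rfl⟩ := Finset.mem_image.1 ha
    have h1 : p ∣ n * h u := Dvd.dvd.mul_right hpn _
    exact hp.one_lt.ne' (Nat.dvd_one.1 ((Nat.dvd_add_left h1).1 hd))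
  · obtain ⟨v, hv⟩ := (hadm p hp).resolve_left hpn
    refine ⟨n * v, fun a ha hd => ?_⟩
    obtain ⟨u, -, rfl⟩ := Finset.mem_image.1 ha
    rw [← Nat.mul_add] at hd
    rcases hp.dvd_mul.1 hd with h1 | h1
    · exact hpn h1
    · exact hv u h1

theorem cluS_of_cluP {L : ℕ} {P : ℕ → Prop} (hP : CluP 3 L P) (n : ℕ) (hn : 1 ≤ n) :
    CluS L n fun m => P (n * m) := by
  intro h hinj hadm
  obtain ⟨s, t, hst, h1⟩ := hP (fun u => n * h u)
    (fun a b hab => hinj (Nat.eq_of_mul_eq_mul_left (by omega) hab)) (adm_mul hadm)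
  refine ⟨s, t, hst, ?_⟩
  have h2 : n * Nat.dist (h s) (h t) = Nat.dist (n * h s) (n * h t) :=
    (Nat.dist_mul_left n _ _).symm
  show P (n * Nat.dist (h s) (h t))
  rw [h2]
  exact h1

theorem cluP_of_cluS {L n : ℕ} {P : ℕ → Prop} (hP : CluS L n P) : CluP 3 L P := by
  intro h hinj hadm
  refine hP h hinj fun p hp => Or.inr ?_
  obtain ⟨v, hv⟩ := hadm p hp
  exact ⟨v, fun u => hv _ (Finset.mem_image_of_mem _ (Finset.mem_univ _))⟩

/-- Families with large differences are harmless. -/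
theorem cluS_of_bounded {L n B : ℕ} {P : ℕ → Prop} (hL : 0 < L)
    (hP : ∀ h : Fin (3 + 1) × Fin L → ℕ, Function.Injective h → (∀ u, h u ≤ 2 * B) →
      (∀ p : ℕ, p.Prime → p ∣ n ∨ ∃ v : ℕ, ∀ u, ¬ p ∣ v + h u) →
      ∃ s t, s.1 < t.1 ∧ P (Nat.dist (h s) (h t))) :
    CluS L n fun m => P m ∨ B < m := by
  classical
  intro h hinj hadm
  by_cases hbig : ∃ s t : Fin (3 + 1) × Fin L, s.1 < t.1 ∧ B < Nat.dist (h s) (h t)
  · obtain ⟨s, t, hst, h1⟩ := hbig
    exact ⟨s, t, hst, Or.inr h1⟩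
  push Not at hbig
  have hbig' : ∀ s t : Fin (3 + 1) × Fin L, s.1 ≠ t.1 → Nat.dist (h s) (h t) ≤ B := by
    intro s t hst
    rcases lt_or_gt_of_ne hst with h1 | h1
    · exact hbig s t h1
    · rw [Nat.dist_comm]
      exact hbig t s h1
  have hall : ∀ s t : Fin (3 + 1) × Fin L, h s ≤ h t + 2 * B := by
    intro s t
    by_cases hst : s.1 = t.1
    · have hc : ∃ c : Fin (3 + 1), c ≠ s.1 := by
        rcases eq_or_ne s.1 0 with h0 | h0
        · exact ⟨1, by rw [h0]; decide⟩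
        · exact ⟨0, h0.symm⟩
      obtain ⟨c, hc⟩ := hc
      have h1 := hbig' s (c, s.2) hc.symm
      have h2 := hbig' (c, s.2) t (by rw [← hst]; exact hc)
      unfold Nat.dist at h1 h2
      omega
    · have h1 := hbig' s t hst
      unfold Nat.dist at h1
      omega
  obtain ⟨u0, -, hu0⟩ := Finset.exists_min_image (Finset.univ : Finset (Fin (3 + 1) × Fin L)) h
    ⟨(0, ⟨0, hL⟩), Finset.mem_univ _⟩
  have hu0' : ∀ u, h u0 ≤ h u := fun u => hu0 u (Finset.mem_univ _)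
  obtain ⟨s, t, hst, h1⟩ := hP (fun u => h u - h u0) (by
      intro a b hab
      have h2 := hu0' a
      have h3 := hu0' b
      have h4 : h a - h u0 = h b - h u0 := hab
      exact hinj (by omega)) (by
      intro u
      have := hall u u0
      show h u - h u0 ≤ 2 * B
      omega) (by
      intro p hp
      rcases hadm p hp with h2 | ⟨v, hv⟩
      · exact Or.inl h2
      · refine Or.inr ⟨v + h u0, fun u hd => hv u ?_⟩
        have h3 := hu0' u
        have h4 : v + h u0 + (h u - h u0) = v + h u := by omega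
        rwa [h4] at hd)
  refine ⟨s, t, hst, Or.inl ?_⟩
  have h2 := hu0' s
  have h3 := hu0' t
  have h4 : Nat.dist (h s) (h t) = Nat.dist (h s - h u0) (h t - h u0) := by
    unfold Nat.dist
    omega
  rw [h4]
  exact h1

/-- `m = p - q` with primes `x < q < p ≤ y`. -/
def DPx (x y m : ℕ) : Prop := ∃ p q : ℕ, p.Prime ∧ q.Prime ∧ x < q ∧ p ≤ y ∧ p = q + m

/-- The cluster theorem at every scale. -/
theorem scale (H : ClusterPlus 3) : ∃ L : ℕ, 0 < L ∧ ∀ C : ℕ, ∃ X₀ : ℕ, ∀ x n B : ℕ, X₀ ≤ x →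
    1 ≤ n → n * (2 * B) ≤ C * x →
      CluS L n fun m => DPx x ((2 + C) * x) (n * m) ∨ B < m := by
  classical
  obtain ⟨L, D₁, hL, hH⟩ := H
  refine ⟨L, hL, fun C => ?_⟩
  have hW0 : 0 < primorial D₁ := by
    unfold primorial
    exact Finset.prod_pos fun p hp => (mem_filter.1 hp).2.pos
  obtain ⟨X₀, hX₀⟩ := hH (primorial D₁) 1 C hW0 dvd_rfl
  refine ⟨X₀, fun x n B hx hn hB => cluS_of_bounded hL fun h hinj hbd hadm => ?_⟩
  obtain ⟨v, hv⟩ := exists_coprime_shift (adm_mul hadm) D₁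
  obtain ⟨z, hz1, hz2, -, i, j, hij, hpi, hpj⟩ := hX₀ x v (fun _ => 1) (fun u => n * h u) hx
    (fun _ => ⟨le_rfl, le_rfl⟩) (fun _ p hp hd => absurd (Nat.dvd_one.1 hd) hp.one_lt.ne')
    (fun u => by
      have h1 : n * h u ≤ n * (2 * B) := Nat.mul_le_mul_left _ (hbd u)
      exact h1.trans hB)
    (fun u => by
      rw [one_mul]
      exact hv _ (Finset.mem_image_of_mem _ (Finset.mem_univ _)))
    (fun i j hij h1 => by
      rw [one_mul, one_mul] at h1
      exact hij (hinj (Nat.eq_of_mul_eq_mul_left (by omega) h1)).symm)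
  rw [one_mul] at hpi hpj
  have hsz : ∀ u, z + n * h u ≤ (2 + C) * x := by
    intro u
    have h1 : n * h u ≤ n * (2 * B) := Nat.mul_le_mul_left _ (hbd u)
    have h2 : (2 + C) * x = 2 * x + C * x := by ring
    omega
  have hdiff : DPx x ((2 + C) * x) (n * Nat.dist (h i) (h j)) := by
    rcases le_total (h i) (h j) with h1 | h1
    · refine ⟨z + n * h j, z + n * h i, hpj, hpi, by omega, hsz j, ?_⟩
      rw [Nat.dist_eq_sub_of_le h1, add_assoc, ← Nat.mul_add]
      congr 2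
      omega
    · refine ⟨z + n * h i, z + n * h j, hpi, hpj, by omega, hsz i, ?_⟩
      rw [Nat.dist_eq_sub_of_le_right h1, add_assoc, ← Nat.mul_add]
      congr 2
      omega
  rcases lt_or_gt_of_ne hij with h1 | h1
  · exact ⟨i, j, h1, hdiff⟩
  · exact ⟨j, i, h1, by rw [Nat.dist_comm]; exact hdiff⟩

end PoolPol
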