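import Pool.Agent.Work.MP_70e905_nt.Pol.Main

/-!
# Pol.Cor : the density of the Polignac numbers in long intervals

With `q = 30`: the weight `wq 30` has mean `64 / 30` and is at most `6 + 2 · 1_{30 ∣ h}`.
-/

namespace PoolPol

open Finset PoolQ4

theorem primorial_five : primorial 5 = 30 := by
  decide +kernel

theorem wq_mod (q h : ℕ) : wq q (h % q) = wq q h := by
  unfold wq
  congr 1
  ext u
  rw [mem_filter, mem_filter]
  have h1 : (u + h % q).Coprime q ↔ (u + h).Coprime q := by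
    have h3 : u + h % q ≡ u + h [MOD q] := (Nat.mod_modEq h q).add_left u
    unfold Nat.Coprime
    rw [h3.gcd_eq]
  rw [h1]

theorem wq_sum_thirty : ∑ v ∈ range 30, wq 30 v = 64 := by
  decide +kernel

theorem wq_le_thirty : ∀ v ∈ range 30, wq 30 v ≤ 6 + (if v = 0 then 2 else 0) := by
  decide +kernel

theorem wq_le (h : ℕ) : wq 30 h ≤ 6 + (if 30 ∣ h then 2 else 0) := by
  have h1 := wq_le_thirty (h % 30) (mem_range.2 (Nat.mod_lt _ (by norm_num)))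
  rw [wq_mod] at h1
  simpa only [Nat.dvd_iff_mod_eq_zero] using h1

theorem sum_wq_block (X k : ℕ) : ∑ h ∈ Ioc X (X + 30 * k), wq 30 h = 64 * k := by
  have hmap : ∀ h ∈ Ioc X (X + 30 * k), h % 30 ∈ range 30 := fun h _ =>
    mem_range.2 (Nat.mod_lt _ (by norm_num))
  rw [← Finset.sum_fiberwise_of_maps_to hmap, ← wq_sum_thirty, Finset.sum_mul]
  refine Finset.sum_congr rfl fun v hv => ?_
  have hv' : v < 30 := mem_range.1 hv
  have h1 : ∑ h ∈ (Ioc X (X + 30 * k)).filter (fun h => h % 30 = v), wq 30 h =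
      ((Ioc X (X + 30 * k)).filter (fun h => h % 30 = v)).card * wq 30 v := by
    refine Finset.sum_const_nat fun h hh => ?_
    rw [← wq_mod 30 h, (mem_filter.1 hh).2]
  have h2 := card_class 30 k X v (by norm_num)
  have h3 : (Ioc X (X + 30 * k)).filter (fun h => h % 30 = v) =
      (Ioc X (X + 30 * k)).filter (fun h => h ≡ v [MOD 30]) := by
    ext h
    rw [mem_filter, mem_filter]
    unfold Nat.ModEq
    rw [Nat.mod_eq_of_lt hv']
  rw [h1, h3, h2, mul_comm]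

theorem sum_wq_ge (X ℓ : ℕ) : (64 : ℝ) * ((ℓ : ℝ) / 30 - 1) ≤ ∑ h ∈ Ioc X (X + ℓ), (wq 30 h : ℝ) := by
  have h1 : 64 * (ℓ / 30) ≤ ∑ h ∈ Ioc X (X + ℓ), wq 30 h := by
    rw [← sum_wq_block X (ℓ / 30)]
    refine Finset.sum_le_sum_of_subset fun h hh => ?_
    rw [mem_Ioc] at hh ⊢
    omega
  have h2 : ((64 * (ℓ / 30) : ℕ) : ℝ) ≤ ((∑ h ∈ Ioc X (X + ℓ), wq 30 h : ℕ) : ℝ) := by
    exact_mod_cast h1
  push_cast at h2
  refine le_trans ?_ h2
  have h3 : (ℓ : ℝ) / 30 - 1 ≤ ((ℓ / 30 : ℕ) : ℝ) := by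
    have h4 : ℓ ≤ 30 * (ℓ / 30) + 30 := by omega
    have h5 : (ℓ : ℝ) ≤ 30 * ((ℓ / 30 : ℕ) : ℝ) + 30 := by exact_mod_cast h4
    linarith
  linarith

theorem card_thirty (X ℓ : ℕ) : ((Ioc X (X + ℓ)).filter (fun h => 30 ∣ h)).card ≤ ℓ / 30 + 1 := by
  have h1 := card_class 30 (ℓ / 30 + 1) X 0 (by norm_num)
  refine le_trans (Finset.card_le_card ?_) h1.le
  intro h hh
  rw [mem_filter, mem_Ioc] at hh ⊢
  exact ⟨by omega, (Nat.modEq_zero_iff_dvd).2 hh.2⟩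

theorem unweighted (L : ℕ) (P : ℕ → Prop) [DecidablePred P] (hP : CluP 4 L P) (ε : ℝ)
    (hε : 0 < ε) : ∃ ℓ₀ : ℕ, ∀ X ℓ : ℕ, ℓ₀ ≤ ℓ →
      (7 / 90 - ε) * (ℓ : ℝ) ≤ (((Ioc X (X + ℓ)).filter P).card : ℝ) := by
  obtain ⟨ℓ₁, hℓ₁⟩ := weighted 4 L (by norm_num) P hP 5 (by norm_num) (min ε (1 / 8))
    (lt_min hε (by norm_num))
  rw [primorial_five] at hℓ₁
  obtain ⟨ℓ₂, hℓ₂⟩ := exists_nat_gt (5 / ε)
  refine ⟨max ℓ₁ ℓ₂, fun X ℓ hℓ => ?_⟩
  have hℓr : 5 ≤ ε * ℓ := by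
    have h1 : 5 / ε < ℓ := hℓ₂.trans_le (by exact_mod_cast le_trans (le_max_right _ _) hℓ)
    rw [div_lt_iff₀ hε] at h1
    linarith
  have h1 := hℓ₁ X ℓ (le_trans (le_max_left _ _) hℓ)
  have h2 : ∑ h ∈ (Ioc X (X + ℓ)).filter P, (wq 30 h : ℝ) ≤
      6 * (((Ioc X (X + ℓ)).filter P).card : ℝ) + 2 * ((ℓ : ℝ) / 30 + 1) := by
    have h3 : ∑ h ∈ (Ioc X (X + ℓ)).filter P, wq 30 h ≤
        6 * ((Ioc X (X + ℓ)).filter P).card + 2 * (ℓ / 30 + 1) := by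
      calc ∑ h ∈ (Ioc X (X + ℓ)).filter P, wq 30 h
          ≤ ∑ h ∈ (Ioc X (X + ℓ)).filter P, (6 + (if 30 ∣ h then 2 else 0)) :=
            Finset.sum_le_sum fun h _ => wq_le h
        _ = 6 * ((Ioc X (X + ℓ)).filter P).card +
            2 * (((Ioc X (X + ℓ)).filter P).filter (fun h => 30 ∣ h)).card := by
            rw [Finset.sum_add_distrib, Finset.sum_const, smul_eq_mul, mul_comm, ← Finset.sum_filter,
              Finset.sum_const, smul_eq_mul, mul_comm _ 2]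
        _ ≤ 6 * ((Ioc X (X + ℓ)).filter P).card + 2 * (ℓ / 30 + 1) := by
            refine Nat.add_le_add_left (Nat.mul_le_mul_left _ ?_) _
            refine le_trans (Finset.card_le_card ?_) (card_thirty X ℓ)
            intro h hh
            rw [mem_filter, mem_filter] at hh
            exact mem_filter.2 ⟨hh.1.1, hh.2⟩
    have h4 : ((∑ h ∈ (Ioc X (X + ℓ)).filter P, wq 30 h : ℕ) : ℝ) ≤
        ((6 * ((Ioc X (X + ℓ)).filter P).card + 2 * (ℓ / 30 + 1) : ℕ) : ℝ) := by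
      exact_mod_cast h3
    push_cast at h4
    refine h4.trans ?_
    have h5 : ((ℓ / 30 : ℕ) : ℝ) ≤ (ℓ : ℝ) / 30 := by
      have := Nat.cast_div_le (m := ℓ) (n := 30) (α := ℝ)
      simpa using this
    linarith
  have h6 := sum_wq_ge X ℓ
  set S : ℝ := ∑ h ∈ Ioc X (X + ℓ), (wq 30 h : ℝ) with hS
  set δ : ℝ := min ε (1 / 8) with hδ
  have hδ1 : δ ≤ ε := min_le_left _ _
  have hδ2 : δ ≤ 1 / 8 := min_le_right _ _
  have hδ0 : 0 < δ := lt_min hε (by norm_num)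
  have h7 : (1 / 4 - δ) * (64 * ((ℓ : ℝ) / 30 - 1)) ≤ (1 / 4 - δ) * S :=
    mul_le_mul_of_nonneg_left h6 (by linarith)
  have h8 : (1 / ((4 : ℕ) : ℝ) - δ) * S = (1 / 4 - δ) * S := by norm_num
  rw [h8] at h1
  have hℓ0 : (0 : ℝ) ≤ ℓ := Nat.cast_nonneg _
  have h9 : δ * ℓ ≤ ε * ℓ := mul_le_mul_of_nonneg_right hδ1 hℓ0
  nlinarith

/-- The number of even integers in an interval. -/
theorem card_even (X ℓ : ℕ) : ((Ioc X (X + ℓ)).filter Even).card ≤ ℓ / 2 + 1 := by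
  have h1 := card_class 2 (ℓ / 2 + 1) X 0 (by norm_num)
  refine le_trans (Finset.card_le_card ?_) h1.le
  intro h hh
  rw [mem_filter, mem_Ioc] at hh ⊢
  exact ⟨by omega, (Nat.modEq_zero_iff_dvd).2 hh.2.two_dvd⟩

end PoolPol
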