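import Pool.Agent.Work.MP_70e905_nt.Q4.Clus

/-!
# Pol.Step1 : the cluster lemma for Polignac numbers

`Pol h` : infinitely many pairs of consecutive primes have the difference `h > 0`.
From `ClusterPlus K` with parameter `L`: whenever `(K + 1) L` distinct integers forming an
admissible set are distributed into `K + 1` clusters of size `L`, two integers of different
clusters have a difference in `Pol`.
-/

namespace PoolPol

open Finset PoolQ4

/-- `h` is the difference of two consecutive primes infinitely often. -/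
def Pol (h : ℕ) : Prop :=
  ∀ N : ℕ, ∃ p : ℕ, N < p ∧ p.Prime ∧ (p + h).Prime ∧ 0 < h ∧
    ∀ k : ℕ, 0 < k → k < h → ¬ (p + k).Prime

/-- The cluster property for a set `P` of differences. -/
def CluP (K L : ℕ) (P : ℕ → Prop) : Prop :=
  ∀ h : Fin (K + 1) × Fin L → ℕ, Function.Injective h →
    Admissible (Finset.univ.image h) →
    ∃ s t, s.1 < t.1 ∧ P (Nat.dist (h s) (h t))

/-- Distinct primes beyond a bound, one for each `g ≤ M`. -/
theorem exists_primes (B : ℕ) : ∃ f : ℕ → ℕ, (∀ g, (f g).Prime) ∧ (∀ g, B < f g) ∧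
    Function.Injective f := by
  refine ⟨fun g => Nat.nth Nat.Prime (B + 1 + g), fun g => Nat.prime_nth_prime _, fun g => ?_, ?_⟩
  · have h1 : B + 1 + g + 2 ≤ Nat.nth Nat.Prime (B + 1 + g) := Nat.add_two_le_nth_prime _
    show B < Nat.nth Nat.Prime (B + 1 + g)
    omega
  · intro a b hab
    have := Nat.nth_injective Nat.infinite_setOfPred_prime hab
    omega

theorem cluP_of_clusterPlus {K : ℕ} (H : ClusterPlus K) : ∃ L : ℕ, 0 < L ∧ CluP K L Pol := by
  classical
  obtain ⟨L, D₁, hL, HC⟩ := H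
  refine ⟨L, hL, fun h hinj hadm => ?_⟩
  by_contra hno
  push Not at hno
  -- bounds
  set HH : Finset ℕ := Finset.univ.image h with hHH
  set M : ℕ := HH.sup id with hM
  have hhM : ∀ s, h s ≤ M := fun s =>
    Finset.le_sup (f := id) (Finset.mem_image_of_mem h (Finset.mem_univ s))
  obtain ⟨f, hfp, hfB, hfinj⟩ := exists_primes (D₁ + M)
  obtain ⟨v₁, hv₁⟩ := exists_coprime_shift hadm D₁
  -- the modulus
  set G : Finset ℕ := (Finset.range (M + 1)).filter fun g => g ∉ HH with hG
  set W₁ : ℕ := primorial D₁ with hW₁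
  set W : ℕ := W₁ * ∏ g ∈ G, f g with hW
  have hW₁pos : 0 < W₁ := by
    rw [hW₁]
    unfold primorial
    exact Finset.prod_pos fun p hp => (mem_filter.1 hp).2.pos
  have hWpos : 0 < W := Nat.mul_pos hW₁pos (Finset.prod_pos fun g _ => (hfp g).pos)
  -- `v`
  have hcopW₁ : ∀ g, (f g).Coprime W₁ := by
    intro g
    rw [hW₁]
    unfold primorial
    refine Nat.Coprime.prod_right fun p hp => ?_
    rw [Nat.coprime_primes (hfp g) (mem_filter.1 hp).2]
    have h1 := hfB g
    have h2 := mem_range.1 (mem_filter.1 hp).1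
    omega
  obtain ⟨v₂, hv₂⟩ := Nat.chineseRemainderOfFinset (fun g => (f g - 1) * g) f G
    (fun g _ => (hfp g).ne_zero)
    (by
      intro g _ g' _ hgg
      exact (Nat.coprime_primes (hfp g) (hfp g')).2 fun h => hgg (hfinj h))
  have hcop2 : W₁.Coprime (∏ g ∈ G, f g) := Nat.Coprime.prod_right fun g _ => (hcopW₁ g).symm
  obtain ⟨v, hvv₁, hvv₂⟩ := Nat.chineseRemainder hcop2 v₁ v₂
  have hvg : ∀ g ∈ G, f g ∣ v + g := by
    intro g hg
    have h1 : v ≡ v₂ [MOD f g] := hvv₂.of_dvd (Finset.dvd_prod_of_mem f hg)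
    have h2 : v + g ≡ (f g - 1) * g + g [MOD f g] := (h1.trans (hv₂ g hg)).add_right g
    have h3 : (f g - 1) * g + g = f g * g := by
      have h4 := (hfp g).one_lt
      calc (f g - 1) * g + g = (f g - 1 + 1) * g := by ring
        _ = f g * g := by rw [Nat.sub_add_cancel h4.le]
    rw [h3] at h2
    exact (h2.dvd_iff dvd_rfl).2 (Dvd.intro _ rfl)
  have hcopall : ∀ s, (v + h s).Coprime W := by
    intro s
    rw [hW]
    refine Nat.Coprime.mul_right ?_ (Nat.Coprime.prod_right fun g hg => ?_)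
    · have h1 := hv₁ (h s) (Finset.mem_image_of_mem h (Finset.mem_univ s))
      have h2 : v + h s ≡ v₁ + h s [MOD W₁] := hvv₁.add_right _
      rw [Nat.Coprime, h2.gcd_eq]
      exact h1
    · refine Nat.Coprime.symm ((Nat.Prime.coprime_iff_not_dvd (hfp g)).2 fun hd => ?_)
      have h1 := hvg g hg
      have hgM : g ≤ M := by
        have := mem_range.1 (mem_filter.1 hg).1
        omega
      have hgH : g ∉ HH := (mem_filter.1 hg).2
      have hne : h s ≠ g := fun h2 => hgH (h2 ▸ Finset.mem_image_of_mem h (Finset.mem_univ s))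
      have hB := hfB g
      rcases lt_or_gt_of_ne hne with hlt | hgt
      · have h3 : f g ∣ (v + g) - (v + h s) := Nat.dvd_sub h1 hd
        have h4 : (v + g) - (v + h s) = g - h s := by omega
        rw [h4] at h3
        have h5 := Nat.le_of_dvd (by omega) h3
        omega
      · have h3 : f g ∣ (v + h s) - (v + g) := Nat.dvd_sub hd h1
        have h4 : (v + h s) - (v + g) = h s - g := by omega
        rw [h4] at h3
        have h5 := Nat.le_of_dvd (by omega) h3
        have h6 := hhM s
        omega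
  obtain ⟨X₀, hX⟩ := HC W 1 1 hWpos (Dvd.intro _ rfl)
  -- bounds beyond which no difference occurs
  have hbd : ∀ s t : Fin (K + 1) × Fin L, ∃ N : ℕ, s.1 < t.1 →
      ∀ p : ℕ, N < p → p.Prime → (p + Nat.dist (h s) (h t)).Prime → 0 < Nat.dist (h s) (h t) →
        ∃ k : ℕ, 0 < k ∧ k < Nat.dist (h s) (h t) ∧ (p + k).Prime := by
    intro s t
    by_cases hst : s.1 < t.1
    · have h1 := hno s t hst
      unfold Pol at h1
      push Not at h1
      obtain ⟨N, hN⟩ := h1
      exact ⟨N, fun _ p hp h2 h3 h4 => hN p hp h2 h3 h4⟩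
    · exact ⟨0, fun h1 => absurd h1 hst⟩
  choose N hN using hbd
  set x : ℕ := X₀ + M + (∏ g ∈ G, f g) +
    ∑ s : Fin (K + 1) × Fin L, ∑ t : Fin (K + 1) × Fin L, N s t with hx
  have hNx : ∀ s t, N s t ≤ x := by
    intro s t
    have h1 : N s t ≤ ∑ t : Fin (K + 1) × Fin L, N s t :=
      Finset.single_le_sum (f := fun t => N s t) (fun _ _ => Nat.zero_le _) (Finset.mem_univ t)
    have h2 : ∑ t : Fin (K + 1) × Fin L, N s t ≤
        ∑ s : Fin (K + 1) × Fin L, ∑ t : Fin (K + 1) × Fin L, N s t :=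
      Finset.single_le_sum (f := fun s => ∑ t : Fin (K + 1) × Fin L, N s t)
        (fun _ _ => Nat.zero_le _) (Finset.mem_univ s)
    omega
  obtain ⟨z, hz1, hz2, hzv, i, j, hij, hpi, hpj⟩ := hX x v (fun _ => 1) h (by omega)
    (fun _ => ⟨le_rfl, le_rfl⟩)
    (fun _ p hp hd => absurd (Nat.dvd_one.1 hd) hp.one_lt.ne')
    (fun s => by have := hhM s; omega)
    (fun s => by simpa using hcopall s)
    (fun s t hst hEq => hst (hinj (by simpa using hEq.symm)))
  simp only [one_mul] at hpi hpj
  -- only elements of `HH` give primes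
  have honly : ∀ g : ℕ, g ≤ M → (z + g).Prime → g ∈ HH := by
    intro g hg hgp
    by_contra hgH
    have hgG : g ∈ G := mem_filter.2 ⟨mem_range.2 (by omega), hgH⟩
    have h1 : z + g ≡ v + g [MOD f g] :=
      ((hzv.of_dvd ((Finset.dvd_prod_of_mem f hgG).trans (Dvd.intro_left _ rfl))).add_right g)
    have h2 : f g ∣ z + g := (h1.dvd_iff dvd_rfl).2 (hvg g hgG)
    have h3 : f g = z + g := ((Nat.dvd_prime hgp).1 h2).resolve_left (hfp g).one_lt.ne'
    have h4 : f g ≤ ∏ g ∈ G, f g :=
      Nat.le_of_dvd (Finset.prod_pos fun g _ => (hfp g).pos) (Finset.dvd_prod_of_mem f hgG)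
    omega
  -- a closest pair of primes in different clusters
  set S : Finset ((Fin (K + 1) × Fin L) × (Fin (K + 1) × Fin L)) :=
    Finset.univ.filter fun q => q.1.1 ≠ q.2.1 ∧ (z + h q.1).Prime ∧ (z + h q.2).Prime ∧
      h q.1 < h q.2 with hS
  have hSne : S.Nonempty := by
    have hne : h i ≠ h j := fun h1 => hij (by rw [hinj h1])
    rcases lt_or_gt_of_ne hne with h1 | h1
    · exact ⟨(i, j), mem_filter.2 ⟨Finset.mem_univ _, hij, hpi, hpj, h1⟩⟩
    · exact ⟨(j, i), mem_filter.2 ⟨Finset.mem_univ _, Ne.symm hij, hpj, hpi, h1⟩⟩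
  obtain ⟨q, hqS, hqmin⟩ := Finset.exists_min_image S (fun q => h q.2 - h q.1) hSne
  obtain ⟨-, hq1, hq2, hq3, hq4⟩ := mem_filter.1 hqS
  have hgap : ∀ k : ℕ, 0 < k → k < h q.2 - h q.1 → ¬ (z + h q.1 + k).Prime := by
    intro k hk1 hk2 hkp
    have h1 : h q.1 + k ∈ HH := honly _ (by have := hhM q.2; omega) (by rwa [← add_assoc])
    obtain ⟨u, -, hu⟩ := Finset.mem_image.1 h1
    by_cases hu1 : u.1 = q.1.1
    · have h2 : (u, q.2) ∈ S := mem_filter.2 ⟨Finset.mem_univ _, by
        show u.1 ≠ q.2.1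
        rw [hu1]; exact hq1, by
        show (z + h u).Prime
        rw [hu, ← add_assoc]; exact hkp, hq3, by
        show h u < h q.2
        omega⟩
      have h3 := hqmin _ h2
      simp only at h3
      omega
    · have h2 : (q.1, u) ∈ S := mem_filter.2 ⟨Finset.mem_univ _, fun h3 => hu1 h3.symm, hq2, by
        show (z + h u).Prime
        rw [hu, ← add_assoc]; exact hkp, by
        show h q.1 < h u
        omega⟩
      have h3 := hqmin _ h2
      simp only at h3
      omega
  rcases lt_or_gt_of_ne hq1 with hlt | hgt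
  · have hd : Nat.dist (h q.1) (h q.2) = h q.2 - h q.1 := Nat.dist_eq_sub_of_le hq4.le
    obtain ⟨k, hk1, hk2, hk3⟩ := hN q.1 q.2 hlt (z + h q.1)
      (lt_of_le_of_lt (hNx _ _) (by omega)) hq2
      (by rw [hd, show z + h q.1 + (h q.2 - h q.1) = z + h q.2 by omega]; exact hq3)
      (by rw [hd]; omega)
    rw [hd] at hk2
    exact hgap k hk1 hk2 hk3
  · have hd : Nat.dist (h q.2) (h q.1) = h q.2 - h q.1 := by
      rw [Nat.dist_comm]
      exact Nat.dist_eq_sub_of_le hq4.le
    obtain ⟨k, hk1, hk2, hk3⟩ := hN q.2 q.1 hgt (z + h q.1)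
      (lt_of_le_of_lt (hNx _ _) (by omega)) hq2
      (by rw [hd, show z + h q.1 + (h q.2 - h q.1) = z + h q.2 by omega]; exact hq3)
      (by rw [hd]; omega)
    rw [hd] at hk2
    exact hgap k hk1 hk2 hk3

/-- `Pol h` in terms of the sequence of primes. -/
theorem pol_iff (h : ℕ) :
    Pol h ↔ {n : ℕ | Nat.nth Nat.Prime (n + 1) = Nat.nth Nat.Prime n + h}.Infinite := by
  have hinf := Nat.infinite_setOfPred_prime
  constructor
  · intro H
    rw [Set.infinite_iff_exists_gt]
    intro N
    obtain ⟨p, hp1, hp2, hp3, hh, hp4⟩ := H (Nat.nth Nat.Prime N)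
    refine ⟨Nat.count Nat.Prime p, ?_, ?_⟩
    · show Nat.nth Nat.Prime (Nat.count Nat.Prime p + 1) =
        Nat.nth Nat.Prime (Nat.count Nat.Prime p) + h
      rw [Nat.nth_count hp2]
      have h1 : Nat.count Nat.Prime (p + h) = Nat.count Nat.Prime p + 1 := by
        have h2 : ∀ k, 0 < k → k ≤ h → Nat.count Nat.Prime (p + k) = Nat.count Nat.Prime p + 1 := by
          intro k hk
          induction k with
          | zero => omega
          | succ k ih =>
            intro hkh
            rw [← add_assoc, Nat.count_succ]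
            rcases Nat.eq_zero_or_pos k with rfl | hk0
            · simp [hp2]
            · rw [ih hk0 (by omega), if_neg (hp4 k hk0 (by omega))]
        exact h2 h hh le_rfl
      rw [← h1, Nat.nth_count hp3]
    · by_contra hle
      push Not at hle
      have h3 : Nat.nth Nat.Prime (Nat.count Nat.Prime p) ≤ Nat.nth Nat.Prime N :=
        (Nat.nth_le_nth hinf).2 hle
      rw [Nat.nth_count hp2] at h3
      omega
  · intro H N
    obtain ⟨n, hn, hnN⟩ := Set.infinite_iff_exists_gt.1 H N
    have hn' : Nat.nth Nat.Prime (n + 1) = Nat.nth Nat.Prime n + h := hn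
    have hp := Nat.prime_nth_prime n
    have hp' := Nat.prime_nth_prime (n + 1)
    have hlt : Nat.nth Nat.Prime n < Nat.nth Nat.Prime (n + 1) :=
      Nat.nth_strictMono hinf (Nat.lt_succ_self n)
    refine ⟨Nat.nth Nat.Prime n, ?_, hp, hn' ▸ hp', by omega, fun k hk1 hk2 hkp => ?_⟩
    · have h1 : n + 2 ≤ Nat.nth Nat.Prime n := Nat.add_two_le_nth_prime _
      omega
    · have h1 : Nat.nth Nat.Prime (n + 1) ≤ Nat.nth Nat.Prime n + k := by
        have h2 : n < Nat.count Nat.Prime (Nat.nth Nat.Prime n + k) := by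
          refine (Nat.nth_lt_nth hinf).1 ?_
          rw [Nat.nth_count hkp]
          exact Nat.lt_add_of_pos_right hk1
        have h3 : Nat.nth Nat.Prime (n + 1) ≤
            Nat.nth Nat.Prime (Nat.count Nat.Prime (Nat.nth Nat.Prime n + k)) :=
          (Nat.nth_le_nth hinf).2 h2
        rwa [Nat.nth_count hkp] at h3
      omega

end PoolPol
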