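import Pool.Agent.Work.MP_70e905_nt.Pol.Parts
import Pool.Agent.Work.MP_70e905_nt.Pol.Step1
import Pool.Agent.Work.MP_70e905_nt.Cmb.Blow

/-!
# Pol.Main : weighted density of a cluster set in every long interval

If `CluP K L P` holds, then the elements of `P` carry at least `1/K - ε` of the mass of the weight
`wq q` in every long interval, `q = primorial D`, `D ≥ K + 1`.
-/

namespace PoolPol

open Finset PoolQ4

/-- One more part. -/
theorem next {q Q : ℕ} (hq : 0 < q) (hQ : 0 < Q) (hqQ : q.Coprime Q) (P : ℕ → Prop)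
    [DecidablePred P] (κ ε : ℝ) (hκ0 : 0 ≤ κ - ε) (hκ : κ ≤ 1) (hε : 0 < ε)
    (hbad : ∀ ℓ₀ : ℕ, ∃ X ℓ : ℕ, ℓ₀ ≤ ℓ ∧
      (∑ h ∈ (Ioc X (X + ℓ)).filter P, (wq q h : ℝ)) ≤
        (κ - ε) * ∑ h ∈ Ioc X (X + ℓ), (wq q h : ℝ)) (n : ℕ) (m : ℕ) (f : ℕ → ℕ × ℕ) :
    ∃ t c : ℕ, (∀ i, i < m → (f i).1 + q * Q * n ≤ t) ∧
      (∑ i ∈ range m, (prs P (part q Q n (f i).1 (f i).2) (part q Q n t c) : ℝ)) ≤
          (κ - ε / 2) * m * ((q.totient * n : ℕ) : ℝ) ^ 2 := by
  obtain ⟨N, hN⟩ : ∃ N, N = q * Q * n := ⟨_, rfl⟩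
  obtain ⟨T, hT⟩ : ∃ T, T = ∑ i ∈ range m, ((f i).1 + N) := ⟨_, rfl⟩
  have hTi : ∀ i ∈ range m, (f i).1 + N ≤ T := fun i hi => by
    rw [hT]
    exact Finset.single_le_sum (f := fun i => (f i).1 + N) (fun _ _ => Nat.zero_le _) hi
  obtain ⟨ℓ₀, hℓ₀⟩ := exists_nat_gt (2 * ((q : ℝ) + N + T) / ε)
  obtain ⟨X, ℓ, hℓ, hXℓ⟩ := hbad (ℓ₀ + N + T + 1)
  have hℓr : (2 : ℝ) * ((q : ℝ) + N + T) ≤ ε * ℓ := by
    have h1 : 2 * ((q : ℝ) + N + T) / ε < ℓ := hℓ₀.trans_le (by exact_mod_cast by omega)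
    rw [div_lt_iff₀ hε] at h1
    linarith
  have hℓ1 : N + T + 1 ≤ ℓ := by omega
  clear hℓ hℓ₀
  -- total over all `(t, c)`
  have htot : ∑ t ∈ Ico (X + T) (X + ℓ - N), ∑ c ∈ range Q, ∑ i ∈ range m,
      prs P (part q Q n (f i).1 (f i).2) (part q Q n t c) ≤
      m * (N * n * ∑ h ∈ (Ioc X (X + ℓ)).filter P, wq q h) := by
    calc _ = ∑ t ∈ Ico (X + T) (X + ℓ - N), ∑ i ∈ range m, ∑ c ∈ range Q,
        prs P (part q Q n (f i).1 (f i).2) (part q Q n t c) :=
          Finset.sum_congr rfl fun t _ => Finset.sum_comm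
      _ = ∑ i ∈ range m, ∑ t ∈ Ico (X + T) (X + ℓ - N), ∑ c ∈ range Q,
        prs P (part q Q n (f i).1 (f i).2) (part q Q n t c) := Finset.sum_comm
      _ ≤ ∑ _i ∈ range m, N * n * ∑ h ∈ (Ioc X (X + ℓ)).filter P, wq q h := by
          refine Finset.sum_le_sum fun i hi => ?_
          rw [hN]
          exact avg_one hq hQ hqQ P n _ _ T X ℓ (hN ▸ hTi i hi)
      _ = _ := by rw [Finset.sum_const, card_range, smul_eq_mul]
  by_contra hno
  push Not at hno
  set F : ℕ → ℕ → ℝ := fun t c =>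
    ∑ i ∈ range m, (prs P (part q Q n (f i).1 (f i).2) (part q Q n t c) : ℝ) with hF
  set E : ℝ := (κ - ε / 2) * m * ((q.totient * n : ℕ) : ℝ) ^ 2 with hE
  have hno' : ∀ t ∈ Ico (X + T) (X + ℓ - N), ∀ c ∈ range Q, E < F t c := by
    intro t ht c _
    refine hno t c fun i hi => ?_
    have h1 := hTi i (mem_range.2 hi)
    have h2 := (mem_Ico.1 ht).1
    rw [← hN]
    omega
  have hlow : ((ℓ : ℝ) - N - T) * Q * E < ∑ t ∈ Ico (X + T) (X + ℓ - N), ∑ c ∈ range Q, F t c := by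
    have hcard : ((Ico (X + T) (X + ℓ - N)).card : ℝ) = (ℓ : ℝ) - N - T := by
      rw [Nat.card_Ico, show X + ℓ - N - (X + T) = ℓ - N - T by omega,
        Nat.cast_sub (by omega), Nat.cast_sub (by omega)]
    calc ((ℓ : ℝ) - N - T) * Q * E = ∑ _t ∈ Ico (X + T) (X + ℓ - N), ∑ _c ∈ range Q, E := by
          rw [Finset.sum_const, Finset.sum_const, card_range, nsmul_eq_mul, nsmul_eq_mul, hcard]
          ring
      _ < _ := by
          have hne : (Ico (X + T) (X + ℓ - N)).Nonempty := by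
            rw [Finset.nonempty_Ico]
            omega
          refine Finset.sum_lt_sum_of_nonempty hne fun t ht => ?_
          refine Finset.sum_lt_sum_of_nonempty (by simpa using hQ.ne') fun c hc => ?_
          exact hno' t ht c hc
  have hup : ∑ t ∈ Ico (X + T) (X + ℓ - N), ∑ c ∈ range Q, F t c ≤
      m * ((N : ℝ) * n * ((κ - ε) * ((q.totient : ℝ) ^ 2 * ((ℓ : ℝ) / q + 1)))) := by
    have h1 : ∑ t ∈ Ico (X + T) (X + ℓ - N), ∑ c ∈ range Q, F t c =
        ((∑ t ∈ Ico (X + T) (X + ℓ - N), ∑ c ∈ range Q, ∑ i ∈ range m,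
      prs P (part q Q n (f i).1 (f i).2) (part q Q n t c) : ℕ) : ℝ) := by
      rw [hF]
      push_cast
      rfl
    rw [h1]
    have h2 : ((∑ t ∈ Ico (X + T) (X + ℓ - N), ∑ c ∈ range Q, ∑ i ∈ range m,
      prs P (part q Q n (f i).1 (f i).2) (part q Q n t c) : ℕ) : ℝ) ≤
      ((m * (N * n * ∑ h ∈ (Ioc X (X + ℓ)).filter P, wq q h) : ℕ) : ℝ) := by
      exact_mod_cast htot
    refine h2.trans ?_
    push_cast
    refine mul_le_mul_of_nonneg_left ?_ (Nat.cast_nonneg _)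
    refine mul_le_mul_of_nonneg_left ?_ (by positivity)
    refine hXℓ.trans (mul_le_mul_of_nonneg_left ?_ hκ0)
    have h3 : ((∑ h ∈ Ioc X (X + ℓ), wq q h : ℕ) : ℝ) ≤
        ((q.totient ^ 2 * (ℓ / q + 1) : ℕ) : ℝ) := by
      exact_mod_cast sum_wq_le hq X ℓ
    push_cast at h3
    refine h3.trans (mul_le_mul_of_nonneg_left ?_ (by positivity))
    have h4 : ((ℓ / q : ℕ) : ℝ) ≤ (ℓ : ℝ) / q := Nat.cast_div_le
    linarith
  have hlt := hlow.trans_le hup
  -- compare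
  have hqr : (0 : ℝ) < q := by exact_mod_cast hq
  have hQr : (0 : ℝ) < Q := by exact_mod_cast hQ
  have hNr : (N : ℝ) = q * Q * n := by rw [hN]; push_cast; ring
  have h5 : (m : ℝ) * ((N : ℝ) * n * ((κ - ε) * ((q.totient : ℝ) ^ 2 * ((ℓ : ℝ) / q + 1)))) =
      (Q : ℝ) * (m * ((q.totient : ℝ) * n) ^ 2) * ((κ - ε) * (ℓ + q)) := by
    rw [hNr]
    field_simp
  have h6 : ((ℓ : ℝ) - N - T) * Q * E =
      (Q : ℝ) * (m * ((q.totient : ℝ) * n) ^ 2) * ((κ - ε / 2) * ((ℓ : ℝ) - N - T)) := by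
    rw [hE]
    push_cast
    ring
  rw [h5, h6] at hlt
  have h7 : (κ - ε) * ((ℓ : ℝ) + q) ≤ (κ - ε / 2) * ((ℓ : ℝ) - N - T) := by
    have hN0 : (0 : ℝ) ≤ N := Nat.cast_nonneg _
    have hT0 : (0 : ℝ) ≤ T := Nat.cast_nonneg _
    -- (κ-ε/2)(ℓ-N-T) - (κ-ε)(ℓ+q) = ε/2 ℓ - (κ-ε/2)(N+T) - (κ-ε) q ≥ ε/2 ℓ - (N+T+q)
    have h8 : (κ - ε / 2) * (N + T) ≤ N + T := by
      have : (κ - ε / 2) * ((N : ℝ) + T) ≤ 1 * ((N : ℝ) + T) :=
        mul_le_mul_of_nonneg_right (by linarith) (by linarith)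
      linarith
    have h9 : (κ - ε) * (q : ℝ) ≤ q := by
      have : (κ - ε) * (q : ℝ) ≤ 1 * (q : ℝ) := mul_le_mul_of_nonneg_right (by linarith) hqr.le
      linarith
    nlinarith
  have h10 : (0 : ℝ) ≤ (Q : ℝ) * (m * ((q.totient : ℝ) * n) ^ 2) := by positivity
  have h11 := mul_le_mul_of_nonneg_left h7 h10
  linarith

/-- Choice of the parts inside bad intervals. -/
theorem build {q Q : ℕ} (hq : 0 < q) (hQ : 0 < Q) (hqQ : q.Coprime Q) (P : ℕ → Prop)
    [DecidablePred P] (κ ε : ℝ) (hκ0 : 0 ≤ κ - ε) (hκ : κ ≤ 1) (hε : 0 < ε)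
    (hbad : ∀ ℓ₀ : ℕ, ∃ X ℓ : ℕ, ℓ₀ ≤ ℓ ∧
      (∑ h ∈ (Ioc X (X + ℓ)).filter P, (wq q h : ℝ)) ≤
        (κ - ε) * ∑ h ∈ Ioc X (X + ℓ), (wq q h : ℝ)) (n : ℕ) (m : ℕ) :
    ∃ f : ℕ → ℕ × ℕ, (∀ i k, i < k → k < m → (f i).1 + q * Q * n ≤ (f k).1) ∧
      ∀ k, k < m → (∑ i ∈ range k, (prs P (part q Q n (f i).1 (f i).2)
        (part q Q n (f k).1 (f k).2) : ℝ)) ≤
          (κ - ε / 2) * k * ((q.totient * n : ℕ) : ℝ) ^ 2 := by
  induction m with
  | zero => exact ⟨fun _ => (0, 0), fun _ _ _ h => absurd h (Nat.not_lt_zero _),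
      fun _ h => absurd h (Nat.not_lt_zero _)⟩
  | succ m ih =>
    obtain ⟨f, hf1, hf2⟩ := ih
    obtain ⟨t, c, h1, h2⟩ := next hq hQ hqQ P κ ε hκ0 hκ hε hbad n m f
    refine ⟨Function.update f m (t, c), fun i k hik hkm => ?_, fun k hkm => ?_⟩
    · have hi : i ≠ m := by omega
      rw [Function.update_of_ne hi]
      by_cases hk : k = m
      · subst hk
        rw [Function.update_self]
        exact h1 i hik
      · rw [Function.update_of_ne hk]
        exact hf1 i k hik (by omega)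
    · have hsum : ∀ y : ℕ × ℕ, ∑ i ∈ range k, (prs P (part q Q n (Function.update f m (t, c) i).1
          (Function.update f m (t, c) i).2) (part q Q n y.1 y.2) : ℝ) =
          ∑ i ∈ range k, (prs P (part q Q n (f i).1 (f i).2) (part q Q n y.1 y.2) : ℝ) := by
        intro y
        refine Finset.sum_congr rfl fun i hi => ?_
        have hi' : i ≠ m := by
          have := mem_range.1 hi
          omega
        rw [Function.update_of_ne hi']
      rw [hsum]
      by_cases hk : k = m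
      · subst hk
        rw [Function.update_self]
        exact h2
      · rw [Function.update_of_ne hk]
        exact hf2 k (by omega)

theorem exists_uncovered (H : Finset ℕ) (p : ℕ) (hp : 0 < p)
    (hcard : (H.image (fun h => h % p)).card < p) : ∃ v : ℕ, ∀ h ∈ H, ¬ p ∣ v + h := by
  classical
  by_contra hno
  push Not at hno
  have h1 : range p ⊆ (H.image (fun h => h % p)).image (fun r => (p - r) % p) := by
    intro v hv
    obtain ⟨h, hh, hd⟩ := hno v
    rw [Finset.mem_image]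
    refine ⟨h % p, Finset.mem_image_of_mem _ hh, ?_⟩
    have hvp : v < p := mem_range.1 hv
    have hr := Nat.mod_lt h hp
    have h2 : p ∣ v + h % p := by
      have h3 : v + h ≡ v + h % p [MOD p] := (Nat.mod_modEq h p).symm.add_left v
      exact (h3.dvd_iff dvd_rfl).1 hd
    rcases Nat.eq_zero_or_pos (h % p) with h0 | h0
    · rw [h0] at h2 ⊢
      rw [Nat.add_zero] at h2
      rcases Nat.eq_zero_or_pos v with hv0 | hv0
      · simp [hv0]
      · exact absurd (Nat.le_of_dvd hv0 h2) (by omega)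
    · obtain ⟨k, hk⟩ := h2
      have hk1 : k = 1 := by
        have h4 : 0 < k := by
          rcases Nat.eq_zero_or_pos k with h5 | h5
          · rw [h5] at hk; omega
          · exact h5
        have h6 : k < 2 := by
          by_contra h7
          push Not at h7
          have : p * 2 ≤ p * k := Nat.mul_le_mul_left _ h7
          omega
        omega
      rw [hk1, mul_one] at hk
      show (p - h % p) % p = v
      rw [show p - h % p = v by omega]
      exact Nat.mod_eq_of_lt hvp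
  have h2 := Finset.card_le_card h1
  rw [card_range] at h2
  have h3 := Finset.card_image_le (s := H.image (fun h => h % p)) (f := fun r => (p - r) % p)
  omega

theorem sum_pairs (m : ℕ) (g : ℕ → ℕ → ℝ) :
    ∑ q ∈ (Finset.univ : Finset (Fin m × Fin m)).filter (fun q => q.1 < q.2), g q.1 q.2 =
      ∑ k ∈ range m, ∑ i ∈ range k, g i k := by
  rw [Finset.sum_filter, ← Finset.univ_product_univ, Finset.sum_product_right,
    ← Fin.sum_univ_eq_sum_range (fun k => ∑ i ∈ range k, g i k)]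
  refine Finset.sum_congr rfl fun k _ => ?_
  have h1 : ∑ i : Fin m, (if i < k then g i k else 0) =
      ∑ i : Fin m, (fun i : ℕ => if i < (k : ℕ) then g i k else 0) i := rfl
  refine h1.trans ?_
  rw [Fin.sum_univ_eq_sum_range (fun i : ℕ => if i < (k : ℕ) then g i k else 0),
    ← Finset.sum_filter]
  refine Finset.sum_congr ?_ fun _ _ => rfl
  ext i
  have := k.2
  simp only [mem_filter, mem_range]
  omega

theorem sum_range_cast (m : ℕ) : ∑ k ∈ range m, (k : ℝ) = (m : ℝ) * (m - 1) / 2 := by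
  induction m with
  | zero => simp
  | succ m ih =>
    rw [Finset.sum_range_succ, ih]
    push_cast
    ring

theorem weighted (K L : ℕ) (hK : 1 ≤ K) (P : ℕ → Prop) [DecidablePred P] (hP : CluP K L P)
    (D : ℕ) (hD : K + 1 ≤ D) (ε : ℝ) (hε : 0 < ε) :
    ∃ ℓ₀ : ℕ, ∀ X ℓ : ℕ, ℓ₀ ≤ ℓ →
      (1 / (K : ℝ) - ε) * ∑ h ∈ Ioc X (X + ℓ), (wq (primorial D) h : ℝ) ≤
        ∑ h ∈ (Ioc X (X + ℓ)).filter P, (wq (primorial D) h : ℝ) := by
  classical
  have hsum0 : ∀ X ℓ : ℕ, (0 : ℝ) ≤ ∑ h ∈ (Ioc X (X + ℓ)).filter P, (wq (primorial D) h : ℝ) :=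
    fun X ℓ => Finset.sum_nonneg fun _ _ => Nat.cast_nonneg _
  have hsum1 : ∀ X ℓ : ℕ, (0 : ℝ) ≤ ∑ h ∈ Ioc X (X + ℓ), (wq (primorial D) h : ℝ) :=
    fun X ℓ => Finset.sum_nonneg fun _ _ => Nat.cast_nonneg _
  rcases lt_or_ge (1 / (K : ℝ) - ε) 0 with hneg | hpos
  · exact ⟨0, fun X ℓ _ => (mul_nonpos_of_nonpos_of_nonneg hneg.le (hsum1 X ℓ)).trans (hsum0 X ℓ)⟩
  by_contra hno
  push Not at hno
  have hbad : ∀ ℓ₀ : ℕ, ∃ X ℓ : ℕ, ℓ₀ ≤ ℓ ∧
      (∑ h ∈ (Ioc X (X + ℓ)).filter P, (wq (primorial D) h : ℝ)) ≤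
        (1 / (K : ℝ) - ε) * ∑ h ∈ Ioc X (X + ℓ), (wq (primorial D) h : ℝ) := by
    intro ℓ₀
    obtain ⟨X, ℓ, h1, h2⟩ := hno ℓ₀
    exact ⟨X, ℓ, h1, h2.le⟩
  obtain ⟨q, hqd⟩ : ∃ q, q = primorial D := ⟨_, rfl⟩
  rw [← hqd] at hbad
  clear hno hsum0 hsum1
  have hq : 0 < q := by
    rw [hqd]
    unfold primorial
    exact Finset.prod_pos fun p hp => (mem_filter.1 hp).2.pos
  have hqp : ∀ p : ℕ, p.Prime → p ≤ D → p ∣ q := by
    intro p hp hpD
    rw [hqd]
    unfold primorial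
    exact Finset.dvd_prod_of_mem (fun p => p) (mem_filter.2 ⟨mem_range.2 (by omega), hp⟩)
  obtain ⟨Q, hQd⟩ : ∃ Q, Q = ∏ p ∈ (range ((K + 1) * L + 1)).filter (fun p => p.Prime ∧ D < p), p :=
    ⟨_, rfl⟩
  have hQ : 0 < Q := by
    rw [hQd]
    exact Finset.prod_pos fun p hp => (mem_filter.1 hp).2.1.pos
  have hQp : ∀ p : ℕ, p.Prime → D < p → p ≤ (K + 1) * L → p ∣ Q := by
    intro p hp hpD hpL
    rw [hQd]
    exact Finset.dvd_prod_of_mem (fun p => p) (mem_filter.2 ⟨mem_range.2 (by omega), hp, hpD⟩)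
  have hqQ : q.Coprime Q := by
    rw [hqd, hQd]
    unfold primorial
    refine Nat.Coprime.prod_left fun p hp => Nat.Coprime.prod_right fun p' hp' => ?_
    rw [Nat.coprime_primes (mem_filter.1 hp).2 (mem_filter.1 hp').2.1]
    have h1 := mem_range.1 (mem_filter.1 hp).1
    have h2 := (mem_filter.1 hp').2.2
    omega
  have hKr : 1 / (K : ℝ) ≤ 1 := by
    rw [div_le_one (by exact_mod_cast hK)]
    exact_mod_cast hK
  obtain ⟨m, hm⟩ := PoolCmb.blow K L hK (ε / 2) (by positivity)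
  obtain ⟨n₀, hn₀⟩ := hm m le_rfl
  obtain ⟨f, hf1, hf2⟩ := build hq hQ hqQ P (1 / (K : ℝ)) ε hpos hKr hε hbad n₀ m
  obtain ⟨nn, hnn⟩ : ∃ nn, nn = q.totient * n₀ := ⟨_, rfl⟩
  have hcard : ∀ k, (part q Q n₀ (f k).1 (f k).2).card = nn := fun k => by
    rw [hnn]
    exact card_part hq hQ hqQ n₀ _ _
  have hnn₀ : n₀ ≤ nn := by
    rw [hnn]
    exact Nat.le_mul_of_pos_left _ (Nat.totient_pos.2 hq)
  let e : ℕ → Fin nn → ℕ := fun k => (part q Q n₀ (f k).1 (f k).2).orderEmbOfFin (hcard k)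
  have he_mem : ∀ k a, e k a ∈ part q Q n₀ (f k).1 (f k).2 := fun k a =>
    Finset.orderEmbOfFin_mem _ (hcard k) a
  have he_inj : ∀ k, Function.Injective (e k) := fun k =>
    ((part q Q n₀ (f k).1 (f k).2).orderEmbOfFin (hcard k)).injective
  have he_sum : ∀ k (g : ℕ → ℕ), ∑ a : Fin nn, g (e k a) =
      ∑ x ∈ part q Q n₀ (f k).1 (f k).2, g x := by
    intro k g
    have h1 : (Finset.univ : Finset (Fin nn)).image (e k) = part q Q n₀ (f k).1 (f k).2 :=
      Finset.image_orderEmbOfFin_univ _ (hcard k)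
    rw [← h1, Finset.sum_image (fun _ _ _ _ h => he_inj k h)]
  let r : Fin m → Fin m → Fin nn → Fin nn → Prop := fun i j a b => P (e j b - e i a)
  have hrcard : ∀ i j : ℕ, (((Finset.univ : Finset (Fin nn × Fin nn)).filter
      (fun p => P (e j p.2 - e i p.1))).card) =
      prs P (part q Q n₀ (f i).1 (f i).2) (part q Q n₀ (f j).1 (f j).2) := by
    intro i j
    unfold prs
    rw [← he_sum i, Finset.card_filter, ← Finset.univ_product_univ, Finset.sum_product]
    refine Finset.sum_congr rfl fun a _ => ?_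
    rw [Finset.card_filter, ← he_sum j]
  have hsumr : (∑ p ∈ (Finset.univ : Finset (Fin m × Fin m)).filter (fun p => p.1 < p.2),
            (((Finset.univ : Finset (Fin nn × Fin nn)).filter
              (fun a => r p.1 p.2 a.1 a.2)).card : ℝ)) ≤
          (1 / (K : ℝ) - ε / 2) * ((m : ℝ) * (m - 1) / 2) * (nn : ℝ) ^ 2 := by
    have h1 : (∑ p ∈ (Finset.univ : Finset (Fin m × Fin m)).filter (fun p => p.1 < p.2),
            (((Finset.univ : Finset (Fin nn × Fin nn)).filter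
              (fun a => r p.1 p.2 a.1 a.2)).card : ℝ)) =
        ∑ k ∈ range m, ∑ i ∈ range k, (prs P (part q Q n₀ (f i).1 (f i).2)
          (part q Q n₀ (f k).1 (f k).2) : ℝ) := by
      rw [← sum_pairs m (fun i k => (prs P (part q Q n₀ (f i).1 (f i).2)
          (part q Q n₀ (f k).1 (f k).2) : ℝ))]
      refine Finset.sum_congr rfl fun p _ => ?_
      rw [← hrcard]
    rw [h1]
    calc _ ≤ ∑ k ∈ range m, (1 / (K : ℝ) - ε / 2) * k * ((q.totient * n₀ : ℕ) : ℝ) ^ 2 :=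
          Finset.sum_le_sum fun k hk => hf2 k (mem_range.1 hk)
      _ = _ := by
          rw [← Finset.sum_mul, ← Finset.mul_sum, sum_range_cast, hnn]
  obtain ⟨c, A, hc, hA, hfree⟩ := hn₀ nn hnn₀ r hsumr
  -- the clusters
  obtain ⟨h, hh⟩ : ∃ h : Fin (K + 1) × Fin L → ℕ, h = fun s => e (c s.1) (A s.1 s.2) := ⟨_, rfl⟩
  have hmem : ∀ s, h s ∈ part q Q n₀ (f (c s.1)).1 (f (c s.1)).2 := fun s => by
    rw [hh]
    exact he_mem _ _
  have hlt : ∀ s t, s.1 < t.1 → h s < h t := by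
    intro s t hst
    have h1 := (mem_part.1 (hmem s)).2.1
    have h2 := (mem_part.1 (hmem t)).1
    have h3 := hf1 (c s.1) (c t.1) (hc hst) (c t.1).2
    omega
  have hinj : Function.Injective h := by
    intro s t hst
    rcases lt_trichotomy s.1 t.1 with h1 | h1 | h1
    · exact absurd hst (hlt s t h1).ne
    · have h2 : e (c s.1) (A s.1 s.2) = e (c t.1) (A t.1 t.2) := by
        have := hst
        rw [hh] at this
        exact this
      rw [← h1] at h2
      exact Prod.ext h1 (hA _ (he_inj _ h2))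
    · exact absurd hst (hlt t s h1).ne'
  have hadm : Admissible (Finset.univ.image h) := by
    intro p hp
    by_cases hpD : p ≤ D
    · refine ⟨0, fun x hx => ?_⟩
      obtain ⟨s, -, rfl⟩ := Finset.mem_image.1 hx
      rw [zero_add]
      intro hd
      have h1 := (mem_part.1 (hmem s)).2.2.2
      have h2 : p ∣ Nat.gcd (h s) q := Nat.dvd_gcd hd (hqp p hp hpD)
      rw [h1] at h2
      exact hp.one_lt.ne' (Nat.dvd_one.1 h2)
    · push Not at hpD
      refine exists_uncovered _ p hp.pos ?_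
      rw [Finset.image_image]
      by_cases hpL : p ≤ (K + 1) * L
      · have h1 : (Finset.univ.image ((fun x => x % p) ∘ h)) ⊆
            (Finset.univ : Finset (Fin (K + 1))).image (fun k => (f (c k)).2 % p) := by
          intro x hx
          obtain ⟨s, -, rfl⟩ := Finset.mem_image.1 hx
          refine Finset.mem_image.2 ⟨s.1, Finset.mem_univ _, ?_⟩
          have h2 := (mem_part.1 (hmem s)).2.2.1
          exact (h2.of_dvd (hQp p hp hpD hpL)).symm
        have h2 := Finset.card_le_card h1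
        have h3 := Finset.card_image_le (s := (Finset.univ : Finset (Fin (K + 1))))
          (f := fun k => (f (c k)).2 % p)
        rw [Finset.card_univ, Fintype.card_fin] at h3
        omega
      · have h3 := Finset.card_image_le (s := (Finset.univ : Finset (Fin (K + 1) × Fin L)))
          (f := (fun x => x % p) ∘ h)
        rw [Finset.card_univ, Fintype.card_prod, Fintype.card_fin, Fintype.card_fin] at h3
        omega
  obtain ⟨s, t, hst, hPst⟩ := hP h hinj hadm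
  have h1 := hlt s t hst
  rw [Nat.dist_eq_sub_of_le h1.le] at hPst
  refine hfree s.1 t.1 hst s.2 t.2 ?_
  show P (e (c t.1) (A t.1 t.2) - e (c s.1) (A s.1 s.2))
  rw [hh] at hPst
  exact hPst

end PoolPol
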