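import Mathlib

/-!
# Pol.Parts : the parts and their averages

`part q Q n t c` : the `x` in `(t, t + q Q n]` with `x ≡ c` modulo `Q`, `x` prime to `q`.
`wq q h` : number of classes `u` mod `q` with `u` and `u + h` prime to `q`.
-/

namespace PoolPol

open Finset

/-- The elements of `(t, t + q Q n]` congruent to `c` modulo `Q` and prime to `q`. -/
def part (q Q n t c : ℕ) : Finset ℕ :=
  (Ioc t (t + q * Q * n)).filter fun x => x ≡ c [MOD Q] ∧ x.Coprime q

/-- Number of classes `u` mod `q` with `u` and `u + h` prime to `q`. -/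
def wq (q h : ℕ) : ℕ :=
  ((range q).filter fun u => u.Coprime q ∧ (u + h).Coprime q).card

theorem mem_part {q Q n t c x : ℕ} : x ∈ part q Q n t c ↔
    t < x ∧ x ≤ t + q * Q * n ∧ x ≡ c [MOD Q] ∧ x.Coprime q := by
  unfold part
  rw [mem_filter, mem_Ioc]
  tauto

theorem card_class (r n a v : ℕ) (hr : 0 < r) :
    ((Ioc a (a + r * n)).filter fun x => x ≡ v [MOD r]).card = n := by
  have h := Nat.Ioc_filter_modEq_card a (a + r * n) hr v
  have hr' : (0 : ℚ) < r := by exact_mod_cast hr
  have h2 : (((a + r * n : ℕ) : ℚ) - v) / r = ((a : ℚ) - v) / r + (n : ℤ) := by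
    push_cast
    field_simp
    ring
  rw [h2, Int.floor_add_intCast] at h
  have h3 : ⌊((a : ℚ) - v) / r⌋ + (n : ℤ) - ⌊((a : ℚ) - v) / r⌋ = n := by ring
  rw [h3, max_eq_left (by positivity)] at h
  exact_mod_cast h

theorem sum_part {q Q : ℕ} (hq : 0 < q) (hQ : 0 < Q) (hqQ : q.Coprime Q) (n t c : ℕ) (F : ℕ → ℕ)
    (hF : ∀ x, F (x % q) = F x) :
    ∑ x ∈ part q Q n t c, F x = n * ∑ u ∈ (range q).filter (fun u => u.Coprime q), F u := by
  have hmap : ∀ x ∈ part q Q n t c, x % q ∈ (range q).filter (fun u => u.Coprime q) := by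
    intro x hx
    rw [mem_filter, mem_range]
    refine ⟨Nat.mod_lt _ hq, ?_⟩
    rw [Nat.Coprime, ← Nat.gcd_rec, Nat.gcd_comm]
    exact (mem_part.1 hx).2.2.2
  rw [← Finset.sum_fiberwise_of_maps_to hmap, Finset.mul_sum]
  refine Finset.sum_congr rfl fun u hu => ?_
  have huq : u < q := mem_range.1 (mem_filter.1 hu).1
  have hucop : u.Coprime q := (mem_filter.1 hu).2
  have h1 : ∑ x ∈ (part q Q n t c).filter (fun x => x % q = u), F x =
      ((part q Q n t c).filter (fun x => x % q = u)).card * F u := by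
    rw [← smul_eq_mul, ← Finset.sum_const]
    refine Finset.sum_congr rfl fun x hx => ?_
    rw [← hF x, (mem_filter.1 hx).2]
  rw [h1]
  congr 1
  obtain ⟨e, he1, he2⟩ := Nat.chineseRemainder hqQ u c
  have h2 : (part q Q n t c).filter (fun x => x % q = u) =
      (Ioc t (t + q * Q * n)).filter fun x => x ≡ e [MOD q * Q] := by
    ext x
    rw [mem_filter, mem_part, mem_filter, mem_Ioc, ← Nat.modEq_and_modEq_iff_modEq_mul hqQ]
    constructor
    · rintro ⟨⟨h3, h4, h5, h6⟩, h7⟩
      refine ⟨⟨h3, h4⟩, ?_, h5.trans he2.symm⟩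
      have h8 : x ≡ u [MOD q] := by
        unfold Nat.ModEq
        rw [h7, Nat.mod_eq_of_lt huq]
      exact h8.trans he1.symm
    · rintro ⟨⟨h3, h4⟩, h5, h6⟩
      have h8 : x ≡ u [MOD q] := h5.trans he1
      refine ⟨⟨h3, h4, h6.trans he2, ?_⟩, ?_⟩
      · rw [Nat.Coprime, h8.gcd_eq]
        exact hucop
      · unfold Nat.ModEq at h8
        rw [h8, Nat.mod_eq_of_lt huq]
  rw [h2]
  exact card_class (q * Q) n t e (Nat.mul_pos hq hQ)

theorem totient_eq (q : ℕ) : ((range q).filter (fun u => u.Coprime q)).card = q.totient := by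
  rw [Nat.totient_eq_card_coprime]
  congr 1
  ext u
  simp only [mem_filter]
  rw [Nat.coprime_comm]

theorem card_part {q Q : ℕ} (hq : 0 < q) (hQ : 0 < Q) (hqQ : q.Coprime Q) (n t c : ℕ) :
    (part q Q n t c).card = q.totient * n := by
  have h := sum_part hq hQ hqQ n t c (fun _ => 1) (fun _ => rfl)
  simp only [Finset.sum_const, smul_eq_mul, mul_one] at h
  rw [h, totient_eq, mul_comm]

theorem count_shift {q Q : ℕ} (hq : 0 < q) (hQ : 0 < Q) (hqQ : q.Coprime Q) (n t c h : ℕ) :
    ((part q Q n t c).filter fun x => (x + h).Coprime q).card = n * wq q h := by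
  have h1 := sum_part hq hQ hqQ n t c (fun x => if (x + h).Coprime q then 1 else 0) (by
    intro x
    have h2 : (x % q + h).Coprime q ↔ (x + h).Coprime q := by
      have h3 : x % q + h ≡ x + h [MOD q] := (Nat.mod_modEq x q).add_right h
      unfold Nat.Coprime
      rw [h3.gcd_eq]
    simp only [h2])
  rw [Finset.card_filter, h1]
  congr 1
  unfold wq
  rw [← Finset.card_filter, Finset.filter_filter]

theorem sum_wq_le {q : ℕ} (hq : 0 < q) (X ℓ : ℕ) :
    ∑ h ∈ Ioc X (X + ℓ), wq q h ≤ q.totient ^ 2 * (ℓ / q + 1) := by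
  have h1 : ∑ h ∈ Ioc X (X + ℓ), wq q h =
      ∑ u ∈ (range q).filter (fun u => u.Coprime q),
        ((Ioc X (X + ℓ)).filter fun h => (u + h).Coprime q).card := by
    unfold wq
    simp only [← Finset.filter_filter, Finset.card_filter _ (Finset.filter _ _),
      Finset.card_filter _ (Ioc _ _)]
    rw [Finset.sum_comm]
  rw [h1]
  have h2 : ∀ u ∈ (range q).filter (fun u => u.Coprime q),
      ((Ioc X (X + ℓ)).filter fun h => (u + h).Coprime q).card ≤ q.totient * (ℓ / q + 1) := by
    intro u _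
    refine le_trans ?_ (Nat.Ico_filter_coprime_le (a := q) (X + u + 1) ℓ hq.ne')
    refine Finset.card_le_card_of_injOn (fun h => u + h) ?_ (fun _ _ _ _ h => by simpa using h)
    intro h hh
    rw [Finset.mem_coe, mem_filter, mem_Ioc] at hh
    rw [Finset.mem_coe, mem_filter, mem_Ico]
    exact ⟨by
      show X + u + 1 ≤ u + h ∧ u + h < X + u + 1 + ℓ
      omega, hh.2.symm⟩
  refine (Finset.sum_le_sum h2).trans ?_
  rw [Finset.sum_const, totient_eq, smul_eq_mul]
  exact le_of_eq (by ring)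

/-- Pairs `(x, y)`, `x ∈ A`, `y ∈ B`, with a forbidden difference. -/
def prs (P : ℕ → Prop) [DecidablePred P] (A B : Finset ℕ) : ℕ :=
  ∑ x ∈ A, (B.filter fun y => P (y - x)).card

theorem avg_one {q Q : ℕ} (hq : 0 < q) (hQ : 0 < Q) (hqQ : q.Coprime Q) (P : ℕ → Prop)
    [DecidablePred P] (n t₀ c₀ T X ℓ : ℕ) (hT : t₀ + q * Q * n ≤ T) :
    ∑ t ∈ Ico (X + T) (X + ℓ - q * Q * n), ∑ c ∈ range Q,
      prs P (part q Q n t₀ c₀) (part q Q n t c) ≤
    q * Q * n * n * ∑ h ∈ (Ioc X (X + ℓ)).filter P, wq q h := by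
  set N : ℕ := q * Q * n with hN
  -- remove the sum over `c`
  have h1 : ∀ t, ∑ c ∈ range Q, prs P (part q Q n t₀ c₀) (part q Q n t c) =
      ∑ x ∈ part q Q n t₀ c₀,
        ((Ioc t (t + N)).filter fun y => y.Coprime q ∧ P (y - x)).card := by
    intro t
    unfold prs
    rw [Finset.sum_comm]
    refine Finset.sum_congr rfl fun x _ => ?_
    have hmap : ∀ y ∈ (Ioc t (t + N)).filter (fun y => y.Coprime q ∧ P (y - x)),
        y % Q ∈ range Q := fun y _ => mem_range.2 (Nat.mod_lt _ hQ)
    rw [Finset.card_eq_sum_card_fiberwise hmap]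
    refine Finset.sum_congr rfl fun c hc => ?_
    have hcQ : c < Q := mem_range.1 hc
    congr 1
    ext y
    rw [mem_filter, mem_part, mem_filter, mem_filter, mem_Ioc]
    unfold Nat.ModEq
    rw [Nat.mod_eq_of_lt hcQ]
    tauto
  simp only [h1]
  rw [Finset.sum_comm]
  -- for fixed `x`
  have h2 : ∀ x ∈ part q Q n t₀ c₀,
      ∑ t ∈ Ico (X + T) (X + ℓ - N),
        ((Ioc t (t + N)).filter fun y => y.Coprime q ∧ P (y - x)).card ≤
      N * ∑ h ∈ (Ioc X (X + ℓ)).filter P, if (x + h).Coprime q then 1 else 0 := by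
    intro x hx
    have hxT : x ≤ T := (mem_part.1 hx).2.1.trans hT
    have h3 : ∑ t ∈ Ico (X + T) (X + ℓ - N),
        ((Ioc t (t + N)).filter fun y => y.Coprime q ∧ P (y - x)).card ≤
        ∑ t ∈ Ico (X + T) (X + ℓ - N),
          ∑ y ∈ (Ioc (X + T) (X + ℓ)).filter (fun y => y.Coprime q ∧ P (y - x)),
            if t < y ∧ y ≤ t + N then 1 else 0 := by
      refine Finset.sum_le_sum fun t ht => ?_
      rw [mem_Ico] at ht
      rw [← Finset.card_filter]
      refine Finset.card_le_card fun y hy => ?_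
      rw [mem_filter, mem_Ioc] at hy
      rw [mem_filter, mem_filter, mem_Ioc]
      exact ⟨⟨by omega, hy.2⟩, by omega⟩
    refine h3.trans ?_
    rw [Finset.sum_comm]
    have h4 : ∀ y ∈ (Ioc (X + T) (X + ℓ)).filter (fun y => y.Coprime q ∧ P (y - x)),
        ∑ t ∈ Ico (X + T) (X + ℓ - N), (if t < y ∧ y ≤ t + N then 1 else 0) ≤ N := by
      intro y _
      rw [← Finset.card_filter]
      calc _ ≤ (Ico (y - N) y).card := by
            refine Finset.card_le_card fun t ht => ?_
            rw [mem_filter, mem_Ico] at ht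
            rw [mem_Ico]
            omega
        _ ≤ N := by rw [Nat.card_Ico]; omega
    refine (Finset.sum_le_sum h4).trans ?_
    rw [Finset.sum_const, smul_eq_mul, mul_comm]
    refine Nat.mul_le_mul_left _ ?_
    rw [← Finset.card_filter, Finset.filter_filter]
    refine Finset.card_le_card_of_injOn (fun y => y - x) ?_ ?_
    · intro y hy
      rw [Finset.mem_coe, mem_filter, mem_Ioc] at hy
      rw [Finset.mem_coe, mem_filter, mem_Ioc]
      refine ⟨by
        show X < y - x ∧ y - x ≤ X + ℓ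
        omega, hy.2.2, ?_⟩
      rw [show x + (y - x) = y by omega]
      exact hy.2.1
    · intro y hy y' hy' hyy
      rw [Finset.mem_coe, mem_filter, mem_Ioc] at hy hy'
      simp only at hyy
      omega
  refine (Finset.sum_le_sum h2).trans ?_
  rw [← Finset.mul_sum, Finset.sum_comm]
  have h5 : ∀ h, ∑ x ∈ part q Q n t₀ c₀, (if (x + h).Coprime q then 1 else 0) = n * wq q h := by
    intro h
    rw [← Finset.card_filter]
    exact count_shift hq hQ hqQ n t₀ c₀ h
  simp only [h5]
  rw [← Finset.mul_sum]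
  exact le_of_eq (by ring)

end PoolPol
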