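import Pool.Agent.Work.MP_70e905_nt.Pol.Cor

/-!
# Pol.Six : a sixth of the even numbers

Greedy construction. Parts `{s + M a : a < n}`; `free P M n k s` is the set of the index tuples
without a difference in `P` between two different parts. A new part is put into a bad interval.
-/

namespace PoolPol

open Finset PoolQ4

/-- Index tuples of `k` parts without differences in `P` between different parts. -/
def free (P : ℕ → Prop) [DecidablePred P] (M n k : ℕ) (s : ℕ → ℕ) : Finset (Fin k → Fin n) :=
  Finset.univ.filter fun a => ∀ i j : Fin k, i < j → ¬ P ((s j + M * (a j : ℕ)) - (s i + M * (a i : ℕ)))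

/-- Number of conflicts of the new part `w` with the tuples of the old parts. -/
def cnf (P : ℕ → Prop) [DecidablePred P] (M n k : ℕ) (s : ℕ → ℕ) (w : ℕ) : ℕ :=
  ∑ a ∈ free P M n k s, ∑ i : Fin k,
    ((Finset.univ : Finset (Fin n)).filter fun y : Fin n => P ((w + M * (y : ℕ)) - (s i + M * (a i : ℕ)))).card

theorem free_succ (P : ℕ → Prop) [DecidablePred P] (M n k : ℕ) (s : ℕ → ℕ) (w : ℕ) :
    (free P M n k s).card * n ≤
      (free P M n (k + 1) (Function.update s k w)).card + cnf P M n k s w := by
  classical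
  let good : (Fin k → Fin n) → Finset (Fin n) := fun a =>
    Finset.univ.filter fun y : Fin n => ∀ i : Fin k, ¬ P ((w + M * (y : ℕ)) - (s i + M * (a i : ℕ)))
  have h1 : ∀ a : Fin k → Fin n, n ≤ (good a).card + ∑ i : Fin k,
      ((Finset.univ : Finset (Fin n)).filter fun y : Fin n => P ((w + M * (y : ℕ)) - (s i + M * (a i : ℕ)))).card := by
    intro a
    have h2 : (Finset.univ : Finset (Fin n)) ⊆ good a ∪ (Finset.univ : Finset (Fin k)).biUnion
        fun i => (Finset.univ : Finset (Fin n)).filter
          fun y : Fin n => P ((w + M * (y : ℕ)) - (s i + M * (a i : ℕ))) := by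
      intro y _
      by_cases h3 : ∀ i : Fin k, ¬ P ((w + M * (y : ℕ)) - (s i + M * (a i : ℕ)))
      · exact mem_union_left _ (mem_filter.2 ⟨mem_univ _, h3⟩)
      · push Not at h3
        obtain ⟨i, hi⟩ := h3
        exact mem_union_right _ (mem_biUnion.2 ⟨i, mem_univ _, mem_filter.2 ⟨mem_univ _, hi⟩⟩)
    have h4 := card_le_card h2
    rw [card_univ, Fintype.card_fin] at h4
    refine h4.trans ((card_union_le _ _).trans ?_)
    exact Nat.add_le_add_left card_biUnion_le _
  have h5 : (free P M n k s).card * n ≤ ∑ a ∈ free P M n k s, (good a).card + cnf P M n k s w := by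
    unfold cnf
    rw [← sum_add_distrib, ← smul_eq_mul, ← sum_const]
    exact sum_le_sum fun a _ => h1 a
  refine h5.trans (Nat.add_le_add_right ?_ _)
  rw [← card_sigma]
  refine card_le_card_of_injOn (fun q => (Fin.snoc q.1 q.2 : Fin (k + 1) → Fin n)) ?_ ?_
  · intro q hq
    rw [Finset.mem_coe, mem_sigma] at hq
    have hq1 := (mem_filter.1 hq.1).2
    have hq2 := (mem_filter.1 hq.2).2
    rw [Finset.mem_coe]
    refine mem_filter.2 ⟨mem_univ _, fun i j hij => ?_⟩
    have hi : i ≠ Fin.last k := fun h => by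
      rw [h] at hij
      exact absurd (Fin.le_last j) (not_le.2 hij)
    obtain ⟨i', rfl⟩ := Fin.exists_castSucc_eq.2 hi
    have hi' : Function.update s k w ((Fin.castSucc i' : Fin (k + 1)) : ℕ) = s i' := by
      rw [Function.update_of_ne]
      · rfl
      · rw [Fin.val_castSucc]
        exact i'.2.ne
    by_cases hj : j = Fin.last k
    · subst hj
      have hj' : Function.update s k w ((Fin.last k : Fin (k + 1)) : ℕ) = w := by
        rw [Fin.val_last, Function.update_self]
      rw [hj', hi']
      simp only [Fin.snoc_last, Fin.snoc_castSucc]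
      exact hq2 i'
    · obtain ⟨j', rfl⟩ := Fin.exists_castSucc_eq.2 hj
      have hj' : Function.update s k w ((Fin.castSucc j' : Fin (k + 1)) : ℕ) = s j' := by
        rw [Function.update_of_ne]
        · rfl
        · rw [Fin.val_castSucc]
          exact j'.2.ne
      rw [hj', hi']
      simp only [Fin.snoc_castSucc]
      exact hq1 i' j' (by simpa using hij)
  · intro q hq q' hq' h
    obtain ⟨a, y⟩ := q
    obtain ⟨a', y'⟩ := q'
    have h6 : (Fin.snoc a y : Fin (k + 1) → Fin n) = Fin.snoc a' y' := h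
    have h7 : a = a' := by
      have := congrArg Fin.init h6
      rwa [Fin.init_snoc, Fin.init_snoc] at this
    have h8 : y = y' := by
      have := congrFun h6 (Fin.last k)
      simpa using this
    subst h7
    subst h8
    rfl

/-- Number of elements of `P` in the class `c` modulo `6` of an interval. -/
def cnt (P : ℕ → Prop) [DecidablePred P] (X ℓ c : ℕ) : ℕ :=
  ((Ioc X (X + ℓ)).filter fun h => P h ∧ h ≡ c [MOD 6]).card

/-- The number of integers of an interval with residues modulo `30` in `R`. -/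
theorem card_res (a b : ℕ) (R : Finset ℕ) (hR : ∀ e ∈ R, e < 30) :
    (R.card : ℝ) * (((b : ℝ) - a) / 30 - 1) ≤
      (((Ioc a b).filter fun s => s % 30 ∈ R).card : ℝ) := by
  classical
  rcases lt_or_ge b a with hab | hab
  · have h1 : (b : ℝ) < a := by exact_mod_cast hab
    have h2 : (R.card : ℝ) * (((b : ℝ) - a) / 30 - 1) ≤ 0 :=
      mul_nonpos_of_nonneg_of_nonpos (Nat.cast_nonneg _) (by linarith)
    exact h2.trans (Nat.cast_nonneg _)
  have h1 : R.card * ((b - a) / 30) ≤ ((Ioc a b).filter fun s => s % 30 ∈ R).card := by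
    have hmap : ∀ s ∈ (Ioc a b).filter (fun s => s % 30 ∈ R), s % 30 ∈ R :=
      fun s hs => (mem_filter.1 hs).2
    rw [Finset.card_eq_sum_card_fiberwise hmap, ← smul_eq_mul, ← Finset.sum_const]
    refine Finset.sum_le_sum fun e he => ?_
    have h2 := card_class 30 ((b - a) / 30) a e (by norm_num)
    rw [← h2]
    refine Finset.card_le_card fun x hx => ?_
    rw [mem_filter, mem_Ioc] at hx
    rw [mem_filter, mem_filter, mem_Ioc]
    have h3 : x % 30 = e := by
      have h4 := hx.2
      unfold Nat.ModEq at h4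
      rwa [Nat.mod_eq_of_lt (hR e he)] at h4
    exact ⟨⟨by omega, by rw [h3]; exact he⟩, h3⟩
  have h4 : ((R.card * ((b - a) / 30) : ℕ) : ℝ) ≤
      (((Ioc a b).filter fun s => s % 30 ∈ R).card : ℝ) := by exact_mod_cast h1
  refine le_trans ?_ h4
  push_cast
  refine mul_le_mul_of_nonneg_left ?_ (Nat.cast_nonneg _)
  have h5 : b ≤ 30 * ((b - a) / 30) + 30 + a := by omega
  have h6 : (b : ℝ) ≤ 30 * (((b - a) / 30 : ℕ) : ℝ) + 30 + a := by exact_mod_cast h5
  linarith

/-- A new part with few conflicts inside a bad interval. -/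
theorem ext (P : ℕ → Prop) [DecidablePred P] (M n k : ℕ) (hM : 6 ∣ M) (s : ℕ → ℕ) (r : ℕ)
    (κ : Fin k → ℕ) (hκ : ∀ i : Fin k, κ i + s i ≡ r [MOD 6]) (R : Finset ℕ)
    (hR : ∀ e ∈ R, e < 30 ∧ e ≡ r [MOD 6]) (U ρ : ℝ) (hU : 0 ≤ U) (hρ : 5 * U < ρ * R.card)
    (hbad : ∀ ℓ₀ : ℕ, ∃ X ℓ : ℕ, ℓ₀ ≤ ℓ ∧ (∑ i : Fin k, (cnt P X ℓ (κ i) : ℝ)) ≤ U * ℓ / 6)
    (T : ℕ) (hT : ∀ i : Fin k, s i + M * n ≤ T) :
    ∃ w : ℕ, T ≤ w ∧ w % 30 ∈ R ∧
      (cnf P M n k s w : ℝ) ≤ ρ * ((free P M n k s).card * n : ℕ) := by
  classical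
  by_contra hno
  push Not at hno
  obtain ⟨F, hF⟩ : ∃ F : ℕ, F = (free P M n k s).card * n := ⟨_, rfl⟩
  obtain ⟨ℓ₀, hℓ₀⟩ := exists_nat_gt ((ρ * R.card * (((M * n : ℕ) + T : ℝ) / 30 + 1)) /
    ((ρ * R.card - 5 * U) / 30))
  obtain ⟨X, ℓ, hℓ, hXℓ⟩ := hbad (ℓ₀ + M * n + T)
  have hden : 0 < (ρ * R.card - 5 * U) / 30 := by linarith
  have hℓ1 : ρ * R.card * (((M * n : ℕ) + T : ℝ) / 30 + 1) < ((ρ * R.card - 5 * U) / 30) * ℓ := by
    have h1 : (ℓ₀ : ℝ) ≤ ℓ := by exact_mod_cast (by omega : ℓ₀ ≤ ℓ)
    have h2 := hℓ₀.trans_le h1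
    rw [div_lt_iff₀ hden] at h2
    linarith
  have hℓ2 : M * n + T ≤ ℓ := by omega
  set W : Finset ℕ := (Ioc (X + T) (X + ℓ - M * n)).filter fun s => s % 30 ∈ R with hW
  -- lower bound
  have hlow : (W.card : ℝ) * (ρ * F) ≤ ∑ w ∈ W, (cnf P M n k s w : ℝ) := by
    rw [← nsmul_eq_mul, ← Finset.sum_const]
    refine Finset.sum_le_sum fun w hw => ?_
    have h1 := mem_filter.1 hw
    have h2 := mem_Ioc.1 h1.1
    have h3 := hno w (by omega) h1.2
    rw [← hF] at h3
    exact h3.le
  -- upper bound
  have hup : ∑ w ∈ W, cnf P M n k s w ≤ F * ∑ i : Fin k, cnt P X ℓ (κ i) := by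
    unfold cnf
    rw [Finset.sum_comm, hF, mul_assoc, ← smul_eq_mul (free P M n k s).card, ← Finset.sum_const]
    refine Finset.sum_le_sum fun a _ => ?_
    rw [Finset.sum_comm, Finset.mul_sum]
    refine Finset.sum_le_sum fun i _ => ?_
    have h1 : ∑ w ∈ W, ((Finset.univ : Finset (Fin n)).filter
        fun y : Fin n => P ((w + M * (y : ℕ)) - (s i + M * (a i : ℕ)))).card =
        ∑ y : Fin n, (W.filter fun w => P ((w + M * (y : ℕ)) - (s i + M * (a i : ℕ)))).card := by
      simp only [Finset.card_filter]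
      exact Finset.sum_comm
    rw [h1]
    calc ∑ y : Fin n, (W.filter fun w => P ((w + M * (y : ℕ)) - (s i + M * (a i : ℕ)))).card
        ≤ ∑ _y : Fin n, cnt P X ℓ (κ i) := by
          refine Finset.sum_le_sum fun y _ => ?_
          unfold cnt
          have hsi := hT i
          have hyn := y.2
          have han := (a i).2
          have e1 : M * (y : ℕ) + M ≤ M * n := by
            calc M * (y : ℕ) + M = M * (y + 1) := by ring
              _ ≤ M * n := Nat.mul_le_mul_left _ hyn
          have e2 : M * (a i : ℕ) + M ≤ M * n := by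
            calc M * (a i : ℕ) + M = M * (a i + 1) := by ring
              _ ≤ M * n := Nat.mul_le_mul_left _ han
          refine Finset.card_le_card_of_injOn
            (fun w => (w + M * (y : ℕ)) - (s i + M * (a i : ℕ))) ?_ ?_
          · intro w hw
            rw [Finset.mem_coe, mem_filter, hW, mem_filter, mem_Ioc] at hw
            rw [Finset.mem_coe, mem_filter, mem_Ioc]
            refine ⟨by
              show X < (w + M * (y : ℕ)) - (s i + M * (a i : ℕ)) ∧
                (w + M * (y : ℕ)) - (s i + M * (a i : ℕ)) ≤ X + ℓ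
              omega, hw.2, ?_⟩
            show (w + M * (y : ℕ)) - (s i + M * (a i : ℕ)) ≡ κ i [MOD 6]
            have e3 : w ≡ r [MOD 6] := by
              have e4 := (hR _ hw.1.2).2
              have e5 : w % 30 ≡ w [MOD 6] := (Nat.mod_modEq w 30).of_dvd (by norm_num)
              exact e5.symm.trans e4
            obtain ⟨M', rfl⟩ := hM
            have e6 := hκ i
            unfold Nat.ModEq at e3 e6 ⊢
            have e7 : s i + 6 * M' * (a i : ℕ) ≤ w + 6 * M' * (y : ℕ) := by omega
            have e8 : (6 * M' * (y : ℕ)) % 6 = 0 := by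
              rw [mul_assoc]
              exact Nat.mul_mod_right 6 _
            have e9 : (6 * M' * (a i : ℕ)) % 6 = 0 := by
              rw [mul_assoc]
              exact Nat.mul_mod_right 6 _
            omega
          · intro w hw w' hw' h
            rw [Finset.mem_coe, mem_filter, hW, mem_filter, mem_Ioc] at hw hw'
            simp only at h
            omega
      _ = n * cnt P X ℓ (κ i) := by
          rw [Finset.sum_const, card_univ, Fintype.card_fin, smul_eq_mul]
  have hup' : ∑ w ∈ W, (cnf P M n k s w : ℝ) ≤ F * (U * ℓ / 6) := by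
    have h1 : ((∑ w ∈ W, cnf P M n k s w : ℕ) : ℝ) ≤
        ((F * ∑ i : Fin k, cnt P X ℓ (κ i) : ℕ) : ℝ) := by exact_mod_cast hup
    push_cast at h1
    exact h1.trans (mul_le_mul_of_nonneg_left hXℓ (Nat.cast_nonneg _))
  have hcard := card_res (X + T) (X + ℓ - M * n) R fun e he => (hR e he).1
  rw [← hW, Nat.cast_sub (by omega)] at hcard
  push_cast at hcard
  -- `F` is positive
  have hF0 : 0 < F := by
    rcases Nat.eq_zero_or_pos F with h0 | h0
    · exfalso
      have hR0 : 0 < (R.card : ℝ) := by
        rcases Nat.eq_zero_or_pos R.card with h1 | h1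
        · rw [h1] at hρ
          push_cast at hρ
          linarith
        · exact_mod_cast h1
      have hne : 0 < (W.card : ℝ) := by
        refine lt_of_lt_of_le ?_ hcard
        refine mul_pos hR0 ?_
        have h2 : ρ * R.card * (((M * n : ℕ) + T : ℝ) / 30 + 1) < (ρ * R.card) * (ℓ / 30) := by
          refine hℓ1.trans_le ?_
          have : 0 ≤ U * ℓ := mul_nonneg hU (Nat.cast_nonneg _)
          linarith
        have h3 : 0 < ρ * R.card := by linarith
        have h4 := lt_of_mul_lt_mul_left h2 h3.le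
        push_cast at h4
        linarith
      have hW0 : W.Nonempty := by
        rw [← Finset.card_pos]
        exact_mod_cast hne
      obtain ⟨w, hw⟩ := hW0
      have h5 := mem_filter.1 hw
      have h6 := mem_Ioc.1 h5.1
      have h7 := hno w (by omega) h5.2
      rw [← hF, h0, Nat.cast_zero, mul_zero] at h7
      have h8 : cnf P M n k s w = 0 := by
        unfold cnf
        rcases Nat.eq_zero_or_pos n with hn0 | hn0
        · subst hn0
          refine Finset.sum_eq_zero fun a _ => Finset.sum_eq_zero fun i _ => ?_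
          rw [Finset.card_eq_zero, Finset.filter_eq_empty_iff]
          intro y
          exact y.elim0
        · have h9 : (free P M n k s).card = 0 := by
            rw [hF] at h0
            rcases Nat.mul_eq_zero.1 h0 with h | h
            · exact h
            · omega
          rw [Finset.card_eq_zero] at h9
          rw [h9, Finset.sum_empty]
      rw [h8, Nat.cast_zero] at h7
      exact lt_irrefl _ h7
    · exact h0
  have hFr : (0 : ℝ) < F := by exact_mod_cast hF0
  have hρ0 : 0 ≤ ρ := by
    by_contra h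
    push Not at h
    have : ρ * R.card ≤ 0 := mul_nonpos_of_nonpos_of_nonneg h.le (Nat.cast_nonneg _)
    linarith
  have h1 : (W.card : ℝ) * ρ ≤ U * ℓ / 6 := by
    have h2 : F * ((W.card : ℝ) * ρ) ≤ F * (U * ℓ / 6) := by
      calc F * ((W.card : ℝ) * ρ) = (W.card : ℝ) * (ρ * F) := by ring
        _ ≤ _ := hlow.trans hup'
    exact le_of_mul_le_mul_left h2 hFr
  have h3 := mul_le_mul_of_nonneg_right hcard hρ0
  push_cast at hℓ1
  nlinarith

end PoolPol
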