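import Pool.Agent.Work.MP_70e905_nt.Pol.Six

/-!
# Pol.SixMain : the greedy construction of five clusters

Three parts in the class `r` modulo `6`, two parts in the class `r'`; only the last part avoids one
class modulo `5`.
-/

namespace PoolPol

open Finset PoolQ4

/-- One more part. -/
theorem stage (P : ℕ → Prop) [DecidablePred P] (M n k : ℕ) (hM : 6 ∣ M) (rr : ℕ → ℕ) (c : ℝ)
    (s : ℕ → ℕ) (h1 : ∀ i, i < k → s i ≡ rr i [MOD 6])
    (h2 : ∀ i j, i < j → j < k → s i + M * n ≤ s j)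
    (h3 : c * (n : ℝ) ^ k ≤ ((free P M n k s).card : ℝ)) (R : Finset ℕ)
    (hR : ∀ e ∈ R, e < 30 ∧ e ≡ rr k [MOD 6]) (U ρ : ℝ) (hU : 0 ≤ U) (hρ : 5 * U < ρ * R.card)
    (hρ1 : ρ ≤ 1) (κ : Fin k → ℕ) (hκ : ∀ i : Fin k, κ i + rr i ≡ rr k [MOD 6])
    (hbad : ∀ ℓ₀ : ℕ, ∃ X ℓ : ℕ, ℓ₀ ≤ ℓ ∧ (∑ i : Fin k, (cnt P X ℓ (κ i) : ℝ)) ≤ U * ℓ / 6) :
    ∃ s' : ℕ → ℕ, (∀ i, i < k → s' i = s i) ∧ s' k % 30 ∈ R ∧
      (∀ i, i < k + 1 → s' i ≡ rr i [MOD 6]) ∧
      (∀ i j, i < j → j < k + 1 → s' i + M * n ≤ s' j) ∧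
      (1 - ρ) * c * (n : ℝ) ^ (k + 1) ≤ ((free P M n (k + 1) s').card : ℝ) := by
  classical
  obtain ⟨w, hw1, hw2, hw3⟩ := ext P M n k hM s (rr k) κ
    (fun i => (Nat.ModEq.add_left (κ i) (h1 i i.2)).trans (hκ i)) R hR U ρ hU hρ hbad
    (∑ i ∈ range k, (s i + M * n))
    (fun i => Finset.single_le_sum (f := fun i => s i + M * n) (fun _ _ => Nat.zero_le _)
      (mem_range.2 i.2))
  have hold : ∀ i, i < k → Function.update s k w i = s i := fun i hi =>
    Function.update_of_ne hi.ne _ _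
  refine ⟨Function.update s k w, hold, by rw [Function.update_self]; exact hw2, ?_, ?_, ?_⟩
  · intro i hi
    by_cases hik : i = k
    · subst hik
      rw [Function.update_self]
      have e5 : w % 30 ≡ w [MOD 6] := (Nat.mod_modEq w 30).of_dvd (by norm_num)
      exact e5.symm.trans (hR _ hw2).2
    · rw [hold i (by omega)]
      exact h1 i (by omega)
  · intro i j hij hj
    rw [hold i (by omega)]
    by_cases hjk : j = k
    · subst hjk
      rw [Function.update_self]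
      refine le_trans ?_ hw1
      exact Finset.single_le_sum (f := fun i => s i + M * n) (fun _ _ => Nat.zero_le _)
        (mem_range.2 hij)
    · rw [hold j (by omega)]
      exact h2 i j hij (by omega)
  · have h4 : (((free P M n k s).card * n : ℕ) : ℝ) ≤
        (((free P M n (k + 1) (Function.update s k w)).card + cnf P M n k s w : ℕ) : ℝ) := by
      exact_mod_cast free_succ P M n k s w
    push_cast at h4 hw3
    have h5 : (1 - ρ) * (((free P M n k s).card : ℝ) * n) ≤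
        ((free P M n (k + 1) (Function.update s k w)).card : ℝ) := by linarith
    refine le_trans ?_ h5
    have h6 : (1 - ρ) * c * (n : ℝ) ^ (k + 1) = (1 - ρ) * (c * (n : ℝ) ^ k * n) := by ring
    rw [h6]
    refine mul_le_mul_of_nonneg_left ?_ (by linarith)
    exact mul_le_mul_of_nonneg_right h3 (Nat.cast_nonneg _)

/-- Residues modulo `30` in a class modulo `6`. -/
theorem card_R (r : ℕ) (hr : r = 1 ∨ r = 5) :
    ((range 30).filter fun e => e % 6 = r).card = 5 := by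
  rcases hr with rfl | rfl <;> decide

theorem card_R' (r a : ℕ) (hr : r = 1 ∨ r = 5) (ha : a < 5) :
    ((range 30).filter fun e => e % 6 = r ∧ e % 5 ≠ a).card = 4 := by
  rcases hr with rfl | rfl <;> interval_cases a <;> decide

theorem core_six (L : ℕ) (P : ℕ → Prop) [DecidablePred P] (hP : CluP 4 L P) (ε : ℝ) (hε : 0 < ε)
    (hε1 : ε ≤ 1 / 12) (r r' d : ℕ) (hr : r = 1 ∨ r = 5) (hr' : r' = 1 ∨ r' = 5)
    (hd : d + r ≡ r' [MOD 6])
    (hbad : ∀ ℓ₀ : ℕ, ∃ X ℓ : ℕ, ℓ₀ ≤ ℓ ∧ (cnt P X ℓ 0 : ℝ) ≤ (1 / 2 - 6 * ε) * ℓ / 6 ∧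
      3 * (cnt P X ℓ d : ℝ) ≤ (3 / 4) * ℓ / 6 ∧
      (cnt P X ℓ 0 : ℝ) + 3 * (cnt P X ℓ d : ℝ) ≤ (3 / 4) * ℓ / 6) : False := by
  classical
  have hr0 : r % 6 = r := by rcases hr with rfl | rfl <;> rfl
  have hr0' : r' % 6 = r' := by rcases hr' with rfl | rfl <;> rfl
  obtain ⟨M, hMd⟩ : ∃ M, M = primorial (5 * L + 5) := ⟨_, rfl⟩
  have hMp : ∀ p : ℕ, p.Prime → p ≤ 5 * L + 5 → p ∣ M := by
    intro p hp hpD
    rw [hMd]
    unfold primorial
    exact Finset.dvd_prod_of_mem (fun p => p) (mem_filter.2 ⟨mem_range.2 (by omega), hp⟩)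
  have hM6 : 6 ∣ M := by
    have h2 := hMp 2 Nat.prime_two (by omega)
    have h3 := hMp 3 Nat.prime_three (by omega)
    exact Nat.Coprime.mul_dvd_of_dvd_of_dvd (by norm_num) h2 h3
  have hM0 : 0 < M := by
    rw [hMd]
    unfold primorial
    exact Finset.prod_pos fun p hp => (mem_filter.1 hp).2.pos
  obtain ⟨n₀, hn₀⟩ := PoolCmb.box L 5
    ((1 - 31 / 32) * ((1 - 7 / 8) * ((1 - (1 - 6 * ε)) * ((1 - 3 / 4) * 1)))) (by
      have : 0 < 1 - (1 - 6 * ε) := by linarith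
      positivity)
  obtain ⟨n, hn⟩ : ∃ n, n = n₀ := ⟨_, rfl⟩
  obtain ⟨rr, hrr⟩ : ∃ rr : ℕ → ℕ, rr = fun i => if i < 3 then r else r' := ⟨_, rfl⟩
  have rr0 : ∀ i, i < 3 → rr i = r := fun i hi => by rw [hrr]; exact if_pos hi
  have rr3 : ∀ i, 3 ≤ i → rr i = r' := fun i hi => by rw [hrr]; exact if_neg (not_lt.2 hi)
  -- first part
  have hf1 : (1 : ℝ) * (n : ℝ) ^ 1 ≤ ((free P M n 1 (fun _ => r)).card : ℝ) := by
    have h1 : free P M n 1 (fun _ => r) = Finset.univ := by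
      unfold free
      refine Finset.filter_true_of_mem fun a _ i j hij => ?_
      exact absurd hij (by simp [Subsingleton.elim i j])
    rw [h1, card_univ, Fintype.card_fun, Fintype.card_fin, Fintype.card_fin]
    push_cast
    linarith
  -- second part
  obtain ⟨s₁, -, hs₁R, hs₁a, hs₁b, hs₁c⟩ := stage P M n 1 hM6 rr 1 (fun _ => r)
    (fun i hi => by rw [rr0 i (by omega)])
    (fun i j hij hj => by omega) hf1 ((range 30).filter fun e => e % 6 = r)
    (fun e he => ⟨mem_range.1 (mem_filter.1 he).1, by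
      rw [rr0 1 (by norm_num)]
      unfold Nat.ModEq
      rw [(mem_filter.1 he).2, hr0]⟩) (1 / 2) (3 / 4) (by norm_num)
    (by rw [card_R r hr]; norm_num) (by norm_num) (fun _ => 0)
    (fun i => by rw [rr0 i (by omega), rr0 1 (by norm_num), zero_add])
    (fun ℓ₀ => by
      obtain ⟨X, ℓ, h1, h2, h3, h4⟩ := hbad ℓ₀
      refine ⟨X, ℓ, h1, ?_⟩
      rw [Fin.sum_univ_one]
      have : (0 : ℝ) ≤ ℓ := Nat.cast_nonneg _
      nlinarith)
  -- third part
  obtain ⟨s₂, hs₂o, hs₂R, hs₂a, hs₂b, hs₂c⟩ := stage P M n 2 hM6 rr _ s₁ hs₁a hs₁b hs₁c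
    ((range 30).filter fun e => e % 6 = r)
    (fun e he => ⟨mem_range.1 (mem_filter.1 he).1, by
      rw [rr0 2 (by norm_num)]
      unfold Nat.ModEq
      rw [(mem_filter.1 he).2, hr0]⟩) (1 - 12 * ε) (1 - 6 * ε) (by linarith)
    (by rw [card_R r hr]; push_cast; linarith) (by linarith) (fun _ => 0)
    (fun i => by rw [rr0 i (by omega), rr0 2 (by norm_num), zero_add])
    (fun ℓ₀ => by
      obtain ⟨X, ℓ, h1, h2, h3, h4⟩ := hbad ℓ₀
      refine ⟨X, ℓ, h1, ?_⟩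
      rw [Fin.sum_univ_two]
      linarith)
  -- fourth part
  obtain ⟨s₃, hs₃o, hs₃R, hs₃a, hs₃b, hs₃c⟩ := stage P M n 3 hM6 rr _ s₂ hs₂a hs₂b hs₂c
    ((range 30).filter fun e => e % 6 = r')
    (fun e he => ⟨mem_range.1 (mem_filter.1 he).1, by
      rw [rr3 3 (by norm_num)]
      unfold Nat.ModEq
      rw [(mem_filter.1 he).2, hr0']⟩) (3 / 4) (7 / 8) (by norm_num)
    (by rw [card_R r' hr']; norm_num) (by norm_num) (fun _ => d)
    (fun i => by rw [rr0 i (by omega), rr3 3 (by norm_num)]; exact hd)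
    (fun ℓ₀ => by
      obtain ⟨X, ℓ, h1, h2, h3, h4⟩ := hbad ℓ₀
      refine ⟨X, ℓ, h1, ?_⟩
      rw [Fin.sum_univ_three]
      linarith)
  -- the missing class modulo `5`
  obtain ⟨a, ha5, ha⟩ : ∃ a : ℕ, a < 5 ∧ ∀ i, i < 4 → s₃ i % 5 ≠ a := by
    by_contra hno
    push Not at hno
    have h1 : range 5 ⊆ (range 4).image fun i => s₃ i % 5 := by
      intro a ha
      obtain ⟨i, hi, hia⟩ := hno a (mem_range.1 ha)
      exact mem_image.2 ⟨i, mem_range.2 hi, hia⟩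
    have h2 := (card_le_card h1).trans card_image_le
    rw [card_range, card_range] at h2
    omega
  -- fifth part
  obtain ⟨s, hso, hsR, hsa, hsb, hsc⟩ := stage P M n 4 hM6 rr _ s₃ hs₃a hs₃b hs₃c
    ((range 30).filter fun e => e % 6 = r' ∧ e % 5 ≠ a)
    (fun e he => ⟨mem_range.1 (mem_filter.1 he).1, by
      rw [rr3 4 (by norm_num)]
      unfold Nat.ModEq
      rw [(mem_filter.1 he).2.1, hr0']⟩) (3 / 4) (31 / 32) (by norm_num)
    (by rw [card_R' r' a hr' ha5]; norm_num) (by norm_num) (fun i => if (i : ℕ) < 3 then d else 0)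
    (fun i => by
      rw [rr3 4 (by norm_num)]
      by_cases hi : (i : ℕ) < 3
      · rw [if_pos hi, rr0 i hi]
        exact hd
      · rw [if_neg hi, rr3 i (by omega), zero_add])
    (fun ℓ₀ => by
      obtain ⟨X, ℓ, h1, h2, h3, h4⟩ := hbad ℓ₀
      refine ⟨X, ℓ, h1, ?_⟩
      rw [Fin.sum_univ_four]
      norm_num
      linarith)
  have hs5 : ∀ i, i < 5 → s i % 5 ≠ a := by
    intro i hi
    rcases Nat.lt_or_ge i 4 with h4 | h4
    · rw [hso i h4]
      exact ha i h4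
    · have h5 : i = 4 := by omega
      subst h5
      have h6 := (mem_filter.1 hsR).2.2
      have h7 : s 4 % 30 % 5 = s 4 % 5 := Nat.mod_mod_of_dvd _ (by norm_num)
      rwa [h7] at h6
  -- the box
  obtain ⟨A, hA, hA2⟩ := hn₀ n hn.ge (free P M n 5 s) (by
    refine le_trans (le_of_eq ?_) hsc
    ring)
  obtain ⟨h, hh⟩ : ∃ h : Fin (4 + 1) × Fin L → ℕ, h = fun u => s u.1 + M * (A u.1 u.2 : ℕ) :=
    ⟨_, rfl⟩
  have hval : ∀ u, h u = s u.1 + M * (A u.1 u.2 : ℕ) := fun u => by rw [hh]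
  have hlt : ∀ u v, u.1 < v.1 → h u < h v := by
    intro u v huv
    rw [hval, hval]
    have h1 := hsb u.1 v.1 huv (by omega)
    have h2 : M * (A u.1 u.2 : ℕ) < M * n := Nat.mul_lt_mul_of_pos_left (A u.1 u.2).2 hM0
    omega
  have hinj : Function.Injective h := by
    intro u v huv
    rcases lt_trichotomy u.1 v.1 with h1 | h1 | h1
    · exact absurd huv (hlt u v h1).ne
    · rw [hval, hval, ← h1] at huv
      have h2 : M * (A u.1 u.2 : ℕ) = M * (A u.1 v.2 : ℕ) := by omega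
      have h3 : (A u.1 u.2 : ℕ) = (A u.1 v.2 : ℕ) := Nat.eq_of_mul_eq_mul_left hM0 h2
      exact Prod.ext h1 (hA _ (Fin.ext h3))
    · exact absurd huv (hlt v u h1).ne'
  have hmod : ∀ p : ℕ, p.Prime → p ≤ 5 * L + 5 → ∀ u, h u % p = s u.1 % p := by
    intro p hp hpL u
    rw [hval]
    obtain ⟨M', hM'⟩ := hMp p hp hpL
    rw [hM', mul_assoc, Nat.add_mul_mod_self_left]
  have hsr : ∀ u : Fin (4 + 1) × Fin L, s u.1 % 6 = 1 ∨ s u.1 % 6 = 5 := by
    intro u
    have h1 := hsa u.1 (by omega)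
    unfold Nat.ModEq at h1
    rw [h1]
    rcases Nat.lt_or_ge (u.1 : ℕ) 3 with h3 | h3
    · rw [rr0 _ h3, hr0]
      exact hr
    · rw [rr3 _ h3, hr0']
      exact hr'
  have hadm : Admissible (Finset.univ.image h) := by
    intro p hp
    by_cases hp3 : p ≤ 3
    · have hp23 : p = 2 ∨ p = 3 := by
        have := hp.two_le
        omega
      refine ⟨0, fun x hx hd => ?_⟩
      obtain ⟨u, -, rfl⟩ := Finset.mem_image.1 hx
      rw [zero_add] at hd
      have h1 := hmod p hp (by omega) u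
      have h2 := hsr u
      have h3 := Nat.mod_eq_zero_of_dvd hd
      rcases hp23 with rfl | rfl
      · omega
      · omega
    · push Not at hp3
      have hp5 : 5 ≤ p := by
        by_contra h
        have h4 : p = 4 := by omega
        subst h4
        exact absurd hp (by norm_num)
      refine exists_uncovered _ p hp.pos ?_
      rw [Finset.image_image]
      by_cases hpL : p ≤ 5 * L + 5
      · have h1 : (Finset.univ.image ((fun x => x % p) ∘ h)) ⊆
            (Finset.univ : Finset (Fin (4 + 1))).image (fun k : Fin (4 + 1) => s k % p) := by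
          intro x hx
          obtain ⟨u, -, rfl⟩ := Finset.mem_image.1 hx
          exact Finset.mem_image.2 ⟨u.1, Finset.mem_univ _, (hmod p hp hpL u).symm⟩
        rcases Nat.lt_or_ge 5 p with h6 | h6
        · have h2 := Finset.card_le_card h1
          have h3 := Finset.card_image_le (s := (Finset.univ : Finset (Fin (4 + 1))))
            (f := fun k : Fin (4 + 1) => s k % p)
          rw [Finset.card_univ, Fintype.card_fin] at h3
          omega
        · have h7 : p = 5 := by omega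
          subst h7
          have h8 : (Finset.univ.image ((fun x => x % 5) ∘ h)) ⊆ (range 5).erase a := by
            refine h1.trans fun x hx => ?_
            obtain ⟨k, -, rfl⟩ := Finset.mem_image.1 hx
            rw [mem_erase, mem_range]
            exact ⟨hs5 k k.2, Nat.mod_lt _ (by norm_num)⟩
          have h9 := Finset.card_le_card h8
          rw [Finset.card_erase_of_mem (mem_range.2 ha5), card_range] at h9
          omega
      · have h3 := Finset.card_image_le (s := (Finset.univ : Finset (Fin (4 + 1) × Fin L)))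
          (f := (fun x => x % p) ∘ h)
        rw [Finset.card_univ, Fintype.card_prod, Fintype.card_fin, Fintype.card_fin] at h3
        omega
  obtain ⟨u, v, huv, hPuv⟩ := hP h hinj hadm
  rw [Nat.dist_eq_sub_of_le (hlt u v huv).le] at hPuv
  have h1 := (mem_filter.1 (hA2 (fun j => if j = u.1 then u.2 else v.2))).2 u.1 v.1 huv
  simp only [if_true, if_neg huv.ne'] at h1
  rw [hval, hval] at hPuv
  exact h1 hPuv

theorem cnt_sum (P : ℕ → Prop) [DecidablePred P] (X ℓ : ℕ) :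
    cnt P X ℓ 0 + cnt P X ℓ 2 + cnt P X ℓ 4 ≤ ((Ioc X (X + ℓ)).filter P).card := by
  classical
  unfold cnt
  have h1 : Disjoint ((Ioc X (X + ℓ)).filter fun h => P h ∧ h ≡ 0 [MOD 6])
      ((Ioc X (X + ℓ)).filter fun h => P h ∧ h ≡ 2 [MOD 6]) := by
    rw [Finset.disjoint_left]
    intro h h2 h3
    have h4 := (mem_filter.1 h2).2.2
    have h5 := (mem_filter.1 h3).2.2
    unfold Nat.ModEq at h4 h5
    omega
  rw [← card_union_of_disjoint h1]
  have h2 : Disjoint (((Ioc X (X + ℓ)).filter fun h => P h ∧ h ≡ 0 [MOD 6]) ∪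
      ((Ioc X (X + ℓ)).filter fun h => P h ∧ h ≡ 2 [MOD 6]))
      ((Ioc X (X + ℓ)).filter fun h => P h ∧ h ≡ 4 [MOD 6]) := by
    rw [Finset.disjoint_left]
    intro h h2 h3
    have h5 := (mem_filter.1 h3).2.2
    unfold Nat.ModEq at h5
    rcases mem_union.1 h2 with h6 | h6
    · have h4 := (mem_filter.1 h6).2.2
      unfold Nat.ModEq at h4
      omega
    · have h4 := (mem_filter.1 h6).2.2
      unfold Nat.ModEq at h4
      omega
  rw [← card_union_of_disjoint h2]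
  refine Finset.card_le_card fun h hh => ?_
  rcases mem_union.1 hh with h6 | h6
  · rcases mem_union.1 h6 with h7 | h7
    · exact mem_filter.2 ⟨(mem_filter.1 h7).1, (mem_filter.1 h7).2.1⟩
    · exact mem_filter.2 ⟨(mem_filter.1 h7).1, (mem_filter.1 h7).2.1⟩
  · exact mem_filter.2 ⟨(mem_filter.1 h6).1, (mem_filter.1 h6).2.1⟩

theorem sixth (L : ℕ) (P : ℕ → Prop) [DecidablePred P] (hP : CluP 4 L P) (ε : ℝ) (hε : 0 < ε) :
    ∃ ℓ₀ : ℕ, ∀ X ℓ : ℕ, ℓ₀ ≤ ℓ →
      (1 / 12 - ε) * (ℓ : ℝ) ≤ (((Ioc X (X + ℓ)).filter P).card : ℝ) := by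
  classical
  rcases lt_or_ge (1 / 12) ε with hbig | hsmall
  · refine ⟨0, fun X ℓ _ => ?_⟩
    have h1 : (1 / 12 - ε) * (ℓ : ℝ) ≤ 0 :=
      mul_nonpos_of_nonpos_of_nonneg (by linarith) (Nat.cast_nonneg _)
    exact h1.trans (Nat.cast_nonneg _)
  by_contra hno
  push Not at hno
  have hbase : ∀ X ℓ : ℕ, (((Ioc X (X + ℓ)).filter P).card : ℝ) < (1 / 12 - ε) * (ℓ : ℝ) →
      (cnt P X ℓ 0 : ℝ) + cnt P X ℓ 2 + cnt P X ℓ 4 < (1 / 12 - ε) * (ℓ : ℝ) := by
    intro X ℓ h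
    refine lt_of_le_of_lt ?_ h
    exact_mod_cast cnt_sum P X ℓ
  by_cases hcase : ∀ ℓ₀ : ℕ, ∃ X ℓ : ℕ, ℓ₀ ≤ ℓ ∧
      (((Ioc X (X + ℓ)).filter P).card : ℝ) < (1 / 12 - ε) * (ℓ : ℝ) ∧
      (cnt P X ℓ 4 : ℝ) ≤ cnt P X ℓ 2
  · refine core_six L P hP ε hε hsmall 1 5 4 (Or.inl rfl) (Or.inr rfl) (by decide) fun ℓ₀ => ?_
    obtain ⟨X, ℓ, h1, h2, h3⟩ := hcase ℓ₀
    have h4 := hbase X ℓ h2
    have h5 : (0 : ℝ) ≤ cnt P X ℓ 0 := Nat.cast_nonneg _
    have h6 : (0 : ℝ) ≤ cnt P X ℓ 2 := Nat.cast_nonneg _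
    have h7 : (0 : ℝ) ≤ cnt P X ℓ 4 := Nat.cast_nonneg _
    have h8 : 0 ≤ ε * ℓ := by positivity
    exact ⟨X, ℓ, h1, by linarith, by linarith, by linarith⟩
  · push Not at hcase
    obtain ⟨ℓ₁, hℓ₁⟩ := hcase
    refine core_six L P hP ε hε hsmall 5 1 2 (Or.inr rfl) (Or.inl rfl) (by decide) fun ℓ₀ => ?_
    obtain ⟨X, ℓ, h1, h2⟩ := hno (max ℓ₀ ℓ₁)
    have h3 := hℓ₁ X ℓ (le_trans (le_max_right _ _) h1) h2
    have h4 := hbase X ℓ h2
    have h5 : (0 : ℝ) ≤ cnt P X ℓ 0 := Nat.cast_nonneg _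
    have h6 : (0 : ℝ) ≤ cnt P X ℓ 2 := Nat.cast_nonneg _
    have h7 : (0 : ℝ) ≤ cnt P X ℓ 4 := Nat.cast_nonneg _
    have h8 : 0 ≤ ε * ℓ := by positivity
    exact ⟨X, ℓ, le_trans (le_max_left _ _) h1, by linarith, by linarith, by linarith⟩

end PoolPol
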