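import Pool.Agent.Work.MP_70e905_nt.Pol.SixMain

/-!
# Pol.Third : a third of the even numbers from four clusters

Two parts in the class `r` modulo `6`, two parts in the class `r'`.
-/

namespace PoolPol

open Finset PoolQ4

theorem core_third (L : ℕ) (P : ℕ → Prop) [DecidablePred P] (hP : CluP 3 L P) (ε : ℝ) (hε : 0 < ε)
    (hε1 : ε ≤ 1 / 6) (r r' d : ℕ) (hr : r = 1 ∨ r = 5) (hr' : r' = 1 ∨ r' = 5)
    (hd : d + r ≡ r' [MOD 6])
    (hbad : ∀ ℓ₀ : ℕ, ∃ X ℓ : ℕ, ℓ₀ ≤ ℓ ∧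
      (cnt P X ℓ 0 : ℝ) + 2 * (cnt P X ℓ d : ℝ) ≤ (1 - 6 * ε) * ℓ / 6) : False := by
  classical
  have hr0 : r % 6 = r := by rcases hr with rfl | rfl <;> rfl
  have hr0' : r' % 6 = r' := by rcases hr' with rfl | rfl <;> rfl
  obtain ⟨M, hMd⟩ : ∃ M, M = primorial (4 * L + 5) := ⟨_, rfl⟩
  have hMp : ∀ p : ℕ, p.Prime → p ≤ 4 * L + 5 → p ∣ M := by
    intro p hp hpD
    rw [hMd]
    unfold primorial
    exact Finset.dvd_prod_of_mem (fun p => p) (mem_filter.2 ⟨mem_range.2 (by omega), hp⟩)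
  have hM6 : 6 ∣ M := by
    have h2 := hMp 2 Nat.prime_two (by omega)
    have h3 := hMp 3 Nat.prime_three (by omega)
    exact Nat.Coprime.mul_dvd_of_dvd_of_dvd (by norm_num) h2 h3
  have hM0 : 0 < M := by
    rw [hMd]
    unfold primorial
    exact Finset.prod_pos fun p hp => (mem_filter.1 hp).2.pos
  obtain ⟨n₀, hn₀⟩ := PoolCmb.box L 4
    ((1 - (1 - 3 * ε)) * ((1 - (1 - 3 * ε)) * ((1 - (1 - 3 * ε)) * 1))) (by
      have : 0 < 1 - (1 - 3 * ε) := by linarith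
      positivity)
  obtain ⟨n, hn⟩ : ∃ n, n = n₀ := ⟨_, rfl⟩
  obtain ⟨rr, hrr⟩ : ∃ rr : ℕ → ℕ, rr = fun i => if i < 2 then r else r' := ⟨_, rfl⟩
  have rr0 : ∀ i, i < 2 → rr i = r := fun i hi => by rw [hrr]; exact if_pos hi
  have rr3 : ∀ i, 2 ≤ i → rr i = r' := fun i hi => by rw [hrr]; exact if_neg (not_lt.2 hi)
  -- first part
  have hf1 : (1 : ℝ) * (n : ℝ) ^ 1 ≤ ((free P M n 1 (fun _ => r)).card : ℝ) := by
    have h1 : free P M n 1 (fun _ => r) = Finset.univ := by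
      unfold free
      refine Finset.filter_true_of_mem fun a _ i j hij => ?_
      exact absurd hij (by simp [Subsingleton.elim i j])
    rw [h1, card_univ, Fintype.card_fun, Fintype.card_fin, Fintype.card_fin]
    push_cast
    linarith
  -- second part
  obtain ⟨s₁, -, hs₁R, hs₁a, hs₁b, hs₁c⟩ := stage P M n 1 hM6 rr 1 (fun _ => r)
    (fun i hi => by rw [rr0 i (by omega)])
    (fun i j hij hj => by omega) hf1 ((range 30).filter fun e => e % 6 = r)
    (fun e he => ⟨mem_range.1 (mem_filter.1 he).1, by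
      rw [rr0 1 (by norm_num)]
      unfold Nat.ModEq
      rw [(mem_filter.1 he).2, hr0]⟩) (1 - 6 * ε) (1 - 3 * ε) (by linarith)
    (by rw [card_R r hr]; push_cast; linarith) (by linarith) (fun _ => 0)
    (fun i => by rw [rr0 i (by omega), rr0 1 (by norm_num), zero_add])
    (fun ℓ₀ => by
      obtain ⟨X, ℓ, h1, h2⟩ := hbad ℓ₀
      refine ⟨X, ℓ, h1, ?_⟩
      rw [Fin.sum_univ_one]
      have : (0 : ℝ) ≤ cnt P X ℓ d := Nat.cast_nonneg _
      linarith)
  -- third part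
  obtain ⟨s₂, hs₂o, hs₂R, hs₂a, hs₂b, hs₂c⟩ := stage P M n 2 hM6 rr _ s₁ hs₁a hs₁b hs₁c
    ((range 30).filter fun e => e % 6 = r')
    (fun e he => ⟨mem_range.1 (mem_filter.1 he).1, by
      rw [rr3 2 (by norm_num)]
      unfold Nat.ModEq
      rw [(mem_filter.1 he).2, hr0']⟩) (1 - 6 * ε) (1 - 3 * ε) (by linarith)
    (by rw [card_R r' hr']; push_cast; linarith) (by linarith) (fun _ => d)
    (fun i => by rw [rr0 i (by omega), rr3 2 (by norm_num)]; exact hd)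
    (fun ℓ₀ => by
      obtain ⟨X, ℓ, h1, h2⟩ := hbad ℓ₀
      refine ⟨X, ℓ, h1, ?_⟩
      rw [Fin.sum_univ_two]
      have : (0 : ℝ) ≤ cnt P X ℓ 0 := Nat.cast_nonneg _
      linarith)
  -- fourth part
  obtain ⟨s, hso, hsR, hsa, hsb, hsc⟩ := stage P M n 3 hM6 rr _ s₂ hs₂a hs₂b hs₂c
    ((range 30).filter fun e => e % 6 = r')
    (fun e he => ⟨mem_range.1 (mem_filter.1 he).1, by
      rw [rr3 3 (by norm_num)]
      unfold Nat.ModEq
      rw [(mem_filter.1 he).2, hr0']⟩) (1 - 6 * ε) (1 - 3 * ε) (by linarith)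
    (by rw [card_R r' hr']; push_cast; linarith) (by linarith)
    (fun i => if (i : ℕ) < 2 then d else 0)
    (fun i => by
      rw [rr3 3 (by norm_num)]
      by_cases hi : (i : ℕ) < 2
      · rw [if_pos hi, rr0 i hi]
        exact hd
      · rw [if_neg hi, rr3 i (by omega), zero_add])
    (fun ℓ₀ => by
      obtain ⟨X, ℓ, h1, h2⟩ := hbad ℓ₀
      refine ⟨X, ℓ, h1, ?_⟩
      rw [Fin.sum_univ_three]
      norm_num
      linarith)
  -- the box
  obtain ⟨A, hA, hA2⟩ := hn₀ n hn.ge (free P M n 4 s) (by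
    refine le_trans (le_of_eq ?_) hsc
    ring)
  obtain ⟨h, hh⟩ : ∃ h : Fin (3 + 1) × Fin L → ℕ, h = fun u => s u.1 + M * (A u.1 u.2 : ℕ) :=
    ⟨_, rfl⟩
  have hval : ∀ u, h u = s u.1 + M * (A u.1 u.2 : ℕ) := fun u => by rw [hh]
  have hlt : ∀ u v, u.1 < v.1 → h u < h v := by
    intro u v huv
    rw [hval, hval]
    have h1 := hsb u.1 v.1 huv (by omega)
    have h2 : M * (A u.1 u.2 : ℕ) < M * n := Nat.mul_lt_mul_of_pos_left (A u.1 u.2).2 hM0
    omega
  have hinj : Function.Injective h := by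
    intro u v huv
    rcases lt_trichotomy u.1 v.1 with h1 | h1 | h1
    · exact absurd huv (hlt u v h1).ne
    · rw [hval, hval, ← h1] at huv
      have h2 : M * (A u.1 u.2 : ℕ) = M * (A u.1 v.2 : ℕ) := by omega
      have h3 : (A u.1 u.2 : ℕ) = (A u.1 v.2 : ℕ) := Nat.eq_of_mul_eq_mul_left hM0 h2
      exact Prod.ext h1 (hA _ (Fin.ext h3))
    · exact absurd huv (hlt v u h1).ne'
  have hmod : ∀ p : ℕ, p.Prime → p ≤ 4 * L + 5 → ∀ u, h u % p = s u.1 % p := by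
    intro p hp hpL u
    rw [hval]
    obtain ⟨M', hM'⟩ := hMp p hp hpL
    rw [hM', mul_assoc, Nat.add_mul_mod_self_left]
  have hsr : ∀ u : Fin (3 + 1) × Fin L, s u.1 % 6 = 1 ∨ s u.1 % 6 = 5 := by
    intro u
    have h1 := hsa u.1 (by omega)
    unfold Nat.ModEq at h1
    rw [h1]
    rcases Nat.lt_or_ge (u.1 : ℕ) 2 with h3 | h3
    · rw [rr0 _ h3, hr0]
      exact hr
    · rw [rr3 _ h3, hr0']
      exact hr'
  have hadm : Admissible (Finset.univ.image h) := by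
    intro p hp
    by_cases hp3 : p ≤ 3
    · have hp23 : p = 2 ∨ p = 3 := by
        have := hp.two_le
        omega
      refine ⟨0, fun x hx hd => ?_⟩
      obtain ⟨u, -, rfl⟩ := Finset.mem_image.1 hx
      rw [zero_add] at hd
      have h1 := hmod p hp (by omega) u
      have h2 := hsr u
      have h3 := Nat.mod_eq_zero_of_dvd hd
      rcases hp23 with rfl | rfl
      · omega
      · omega
    · push Not at hp3
      have hp5 : 5 ≤ p := by
        by_contra h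
        have h4 : p = 4 := by omega
        subst h4
        exact absurd hp (by norm_num)
      refine exists_uncovered _ p hp.pos ?_
      rw [Finset.image_image]
      by_cases hpL : p ≤ 4 * L + 5
      · have h1 : (Finset.univ.image ((fun x => x % p) ∘ h)) ⊆
            (Finset.univ : Finset (Fin (3 + 1))).image (fun k : Fin (3 + 1) => s k % p) := by
          intro x hx
          obtain ⟨u, -, rfl⟩ := Finset.mem_image.1 hx
          exact Finset.mem_image.2 ⟨u.1, Finset.mem_univ _, (hmod p hp hpL u).symm⟩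
        have h2 := Finset.card_le_card h1
        have h3 := Finset.card_image_le (s := (Finset.univ : Finset (Fin (3 + 1))))
          (f := fun k : Fin (3 + 1) => s k % p)
        rw [Finset.card_univ, Fintype.card_fin] at h3
        omega
      · have h3 := Finset.card_image_le (s := (Finset.univ : Finset (Fin (3 + 1) × Fin L)))
          (f := (fun x => x % p) ∘ h)
        rw [Finset.card_univ, Fintype.card_prod, Fintype.card_fin, Fintype.card_fin] at h3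
        omega
  obtain ⟨u, v, huv, hPuv⟩ := hP h hinj hadm
  rw [Nat.dist_eq_sub_of_le (hlt u v huv).le] at hPuv
  have h1 := (mem_filter.1 (hA2 (fun j => if j = u.1 then u.2 else v.2))).2 u.1 v.1 huv
  simp only [if_true, if_neg huv.ne'] at h1
  rw [hval, hval] at hPuv
  exact h1 hPuv

theorem third (L : ℕ) (P : ℕ → Prop) [DecidablePred P] (hP : CluP 3 L P) (ε : ℝ) (hε : 0 < ε) :
    ∃ ℓ₀ : ℕ, ∀ X ℓ : ℕ, ℓ₀ ≤ ℓ →
      (1 / 6 - ε) * (ℓ : ℝ) ≤ (((Ioc X (X + ℓ)).filter P).card : ℝ) := by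
  classical
  rcases lt_or_ge (1 / 6) ε with hbig | hsmall
  · refine ⟨0, fun X ℓ _ => ?_⟩
    have h1 : (1 / 6 - ε) * (ℓ : ℝ) ≤ 0 :=
      mul_nonpos_of_nonpos_of_nonneg (by linarith) (Nat.cast_nonneg _)
    exact h1.trans (Nat.cast_nonneg _)
  by_contra hno
  push Not at hno
  have hbase : ∀ X ℓ : ℕ, (((Ioc X (X + ℓ)).filter P).card : ℝ) < (1 / 6 - ε) * (ℓ : ℝ) →
      (cnt P X ℓ 0 : ℝ) + cnt P X ℓ 2 + cnt P X ℓ 4 < (1 / 6 - ε) * (ℓ : ℝ) := by
    intro X ℓ h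
    refine lt_of_le_of_lt ?_ h
    exact_mod_cast cnt_sum P X ℓ
  by_cases hcase : ∀ ℓ₀ : ℕ, ∃ X ℓ : ℕ, ℓ₀ ≤ ℓ ∧
      (((Ioc X (X + ℓ)).filter P).card : ℝ) < (1 / 6 - ε) * (ℓ : ℝ) ∧
      (cnt P X ℓ 4 : ℝ) ≤ cnt P X ℓ 2
  · refine core_third L P hP ε hε hsmall 1 5 4 (Or.inl rfl) (Or.inr rfl) (by decide) fun ℓ₀ => ?_
    obtain ⟨X, ℓ, h1, h2, h3⟩ := hcase ℓ₀
    have h4 := hbase X ℓ h2
    exact ⟨X, ℓ, h1, by linarith⟩
  · push Not at hcase
    obtain ⟨ℓ₁, hℓ₁⟩ := hcase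
    refine core_third L P hP ε hε hsmall 5 1 2 (Or.inr rfl) (Or.inl rfl) (by decide) fun ℓ₀ => ?_
    obtain ⟨X, ℓ, h1, h2⟩ := hno (max ℓ₀ ℓ₁)
    have h3 := hℓ₁ X ℓ (le_trans (le_max_right _ _) h1) h2
    have h4 := hbase X ℓ h2
    exact ⟨X, ℓ, le_trans (le_max_left _ _) h1, by linarith⟩

end PoolPol
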