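import Pool.Agent.Work.MP_70e905_nt.Pol.Third

/-!
# Pol.Unif : a third of the even numbers of every initial interval, uniformly in the predicate
-/

set_option autoImplicit false

namespace PoolPol

open Finset PoolQ4

/-- The staircase argument: two sets of integers have many pairs with difference outside `Z`. -/
theorem stair_aux (Z : Finset ℤ) (κ : ℕ) : ∀ (j : ℕ) (A B : Finset ℕ), j ≤ A.card → j ≤ B.card →
    Z.card + κ + 2 * j ≤ A.card + B.card →
    j * κ ≤ ((A ×ˢ B).filter fun p => ((p.2 : ℤ) - (p.1 : ℤ)) ∉ Z).card := by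
  classical
  intro j
  induction j with
  | zero =>
    intro A B _ _ _
    simp
  | succ j ih =>
    intro A B hA hB h
    have hAn : A.Nonempty := card_pos.1 (by omega)
    have hBn : B.Nonempty := card_pos.1 (by omega)
    obtain ⟨a, ha0⟩ : ∃ a, a = A.min' hAn := ⟨_, rfl⟩
    obtain ⟨b, hb0⟩ : ∃ b, b = B.min' hBn := ⟨_, rfl⟩
    have ha : a ∈ A := by rw [ha0]; exact A.min'_mem hAn
    have hb : b ∈ B := by rw [hb0]; exact B.min'_mem hBn
    have hamin : ∀ y ∈ A, a ≤ y := fun y hy => by rw [ha0]; exact A.min'_le y hy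
    have hbmin : ∀ z ∈ B, b ≤ z := fun z hz => by rw [hb0]; exact B.min'_le z hz
    have ih' := ih (A.erase a) (B.erase b) (by rw [card_erase_of_mem ha]; omega)
      (by rw [card_erase_of_mem hb]; omega)
      (by rw [card_erase_of_mem ha, card_erase_of_mem hb]; omega)
    obtain ⟨S, hSd⟩ : ∃ S : Finset (ℕ × ℕ), S = B.image (fun z => (a, z)) ∪
      (A.erase a).image (fun y => (y, b)) := ⟨_, rfl⟩
    have hmem : ∀ p : ℕ × ℕ, p ∈ S ↔ (p.1 = a ∧ p.2 ∈ B) ∨ (p.1 ∈ A ∧ a < p.1 ∧ p.2 = b) := by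
      intro p
      rw [hSd, mem_union, mem_image, mem_image]
      constructor
      · rintro (⟨z, hz, rfl⟩ | ⟨y, hy, rfl⟩)
        · exact Or.inl ⟨rfl, hz⟩
        · rw [mem_erase] at hy
          exact Or.inr ⟨hy.2, lt_of_le_of_ne (hamin y hy.2) (Ne.symm hy.1), rfl⟩
      · rintro (⟨h1, h2⟩ | ⟨h1, h2, h3⟩)
        · exact Or.inl ⟨p.2, h2, Prod.ext h1.symm rfl⟩
        · exact Or.inr ⟨p.1, mem_erase.2 ⟨h2.ne', h1⟩, Prod.ext rfl h3.symm⟩
    have hS : S.card = B.card + (A.card - 1) := by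
      rw [hSd, card_union_of_disjoint, card_image_of_injective, card_image_of_injective,
        card_erase_of_mem ha]
      · intro x y hxy
        exact (Prod.ext_iff.1 hxy).1
      · intro x y hxy
        exact (Prod.ext_iff.1 hxy).2
      · rw [disjoint_left]
        intro p hp hq
        rw [mem_image] at hp hq
        obtain ⟨z, hz, rfl⟩ := hp
        obtain ⟨y, hy, hyz⟩ := hq
        exact (mem_erase.1 hy).1 (Prod.ext_iff.1 hyz).1
    have hinj : Set.InjOn (fun p : ℕ × ℕ => ((p.2 : ℤ) - (p.1 : ℤ))) (S : Set (ℕ × ℕ)) := by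
      intro p hp q hq hpq
      rw [mem_coe, hmem] at hp hq
      have hpq' : ((p.2 : ℤ) - (p.1 : ℤ)) = ((q.2 : ℤ) - (q.1 : ℤ)) := hpq
      rcases hp with ⟨h1, h2⟩ | ⟨h1, h2, h3⟩ <;> rcases hq with ⟨h4, h5⟩ | ⟨h4, h5, h6⟩
      · exact Prod.ext (by omega) (by omega)
      · have := hbmin _ h2
        omega
      · have := hbmin _ h5
        omega
      · exact Prod.ext (by omega) (by omega)
    have hbad : (S.filter fun p => ((p.2 : ℤ) - (p.1 : ℤ)) ∈ Z).card ≤ Z.card := by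
      refine card_le_card_of_injOn (fun p : ℕ × ℕ => ((p.2 : ℤ) - (p.1 : ℤ))) ?_ ?_
      · intro p hp
        exact (mem_filter.1 (mem_coe.1 hp)).2
      · exact hinj.mono fun p hp => mem_coe.2 (mem_filter.1 (mem_coe.1 hp)).1
    have hgood : κ ≤ (S.filter fun p => ((p.2 : ℤ) - (p.1 : ℤ)) ∉ Z).card := by
      have h1 := card_filter_add_card_filter_not (s := S)
        (fun p => ((p.2 : ℤ) - (p.1 : ℤ)) ∈ Z)
      omega
    have hsub : ((A.erase a ×ˢ B.erase b).filter fun p => ((p.2 : ℤ) - (p.1 : ℤ)) ∉ Z) ∪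
        (S.filter fun p => ((p.2 : ℤ) - (p.1 : ℤ)) ∉ Z) ⊆
        (A ×ˢ B).filter fun p => ((p.2 : ℤ) - (p.1 : ℤ)) ∉ Z := by
      intro p hp
      rw [mem_union, mem_filter, mem_filter, mem_product] at hp
      rw [mem_filter, mem_product]
      rcases hp with ⟨⟨h1, h2⟩, h3⟩ | ⟨h1, h2⟩
      · exact ⟨⟨mem_of_mem_erase h1, mem_of_mem_erase h2⟩, h3⟩
      · rw [hmem] at h1
        rcases h1 with ⟨h4, h5⟩ | ⟨h4, h5, h6⟩
        · exact ⟨⟨by rw [h4]; exact ha, h5⟩, h2⟩
        · exact ⟨⟨h4, by rw [h6]; exact hb⟩, h2⟩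
    have hdisj : Disjoint ((A.erase a ×ˢ B.erase b).filter fun p => ((p.2 : ℤ) - (p.1 : ℤ)) ∉ Z)
        (S.filter fun p => ((p.2 : ℤ) - (p.1 : ℤ)) ∉ Z) := by
      rw [disjoint_left]
      intro p hp hq
      rw [mem_filter, mem_product, mem_erase, mem_erase] at hp
      rw [mem_filter, hmem] at hq
      rcases hq.1 with ⟨h1, h2⟩ | ⟨h1, h2, h3⟩
      · exact hp.1.1.1 h1
      · exact hp.1.2.1 h3
    have h2 := card_le_card hsub
    rw [card_union_of_disjoint hdisj] at h2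
    have h3 : (j + 1) * κ = j * κ + κ := by ring
    omega

/-- Two sets of integers have many pairs with difference outside `Z`. -/
theorem stair (Z : Finset ℤ) (κ : ℕ) (A B : Finset ℕ) (hA : κ ≤ A.card) (hB : κ ≤ B.card)
    (h : Z.card + 3 * κ ≤ A.card + B.card) :
    κ * κ ≤ ((A ×ˢ B).filter fun p => ((p.2 : ℤ) - (p.1 : ℤ)) ∉ Z).card :=
  stair_aux Z κ κ A B hA hB (by omega)

/-- A walk with steps at most `2`, which goes up only outside `E`. -/
theorem walk (E : ℕ → Prop) [DecidablePred E] (g : ℕ → ℤ) (h0 : g 0 ≤ 0)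
    (h1 : ∀ D, E D → g (D + 1) ≤ g D) (h2 : ∀ D, ¬ E D → g (D + 1) ≤ g D + 2) (T : ℤ) (hT : 0 ≤ T)
    (V : ℕ) : g V ≤ T + 2 + 2 * (((range V).filter fun D => ¬ E D ∧ T ≤ g D).card : ℤ) := by
  induction V with
  | zero =>
    simp
    linarith
  | succ V ih =>
    rw [range_add_one, filter_insert]
    by_cases hE : E V
    · have h3 := h1 V hE
      rw [if_neg (fun h => h.1 hE)]
      linarith
    · have h3 := h2 V hE
      by_cases hg : T ≤ g V
      · rw [if_pos ⟨hE, hg⟩, card_insert_of_notMem (by simp)]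
        push_cast
        linarith
      · rw [if_neg (fun h => hg h.2)]
        have h4 : (0 : ℤ) ≤ (((range V).filter fun D => ¬ E D ∧ T ≤ g D).card : ℤ) :=
          Nat.cast_nonneg _
        push Not at hg
        linarith


/-- The number of multiples `6 k`, `1 ≤ k ≤ D`, with `P`. -/
def nz (P : ℕ → Prop) [DecidablePred P] (D : ℕ) : ℕ := ((Ioc 0 D).filter fun k => P (6 * k)).card

/-- The number of `6 k + e`, `k < D`, with `P`. -/
def ne (P : ℕ → Prop) [DecidablePred P] (e D : ℕ) : ℕ :=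
  ((range D).filter fun k => P (6 * k + e)).card

/-- The walk. -/
def gg (P : ℕ → Prop) [DecidablePred P] (e D : ℕ) : ℤ :=
  2 * (D : ℤ) - 2 * (nz P D : ℤ) - 3 * (ne P e D : ℤ) - (ne P (6 - e) D : ℤ)

theorem nz_mono (P : ℕ → Prop) [DecidablePred P] (D : ℕ) : nz P D ≤ nz P (D + 1) := by
  unfold nz
  refine card_le_card (filter_subset_filter _ ?_)
  exact Ioc_subset_Ioc_right (Nat.le_succ D)

theorem ne_mono (P : ℕ → Prop) [DecidablePred P] (e D : ℕ) : ne P e D ≤ ne P e (D + 1) := by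
  unfold ne
  exact card_le_card (filter_subset_filter _ (range_mono (Nat.le_succ D)))

theorem ne_succ (P : ℕ → Prop) [DecidablePred P] (e D : ℕ) (h : P (6 * D + e)) :
    ne P e (D + 1) = ne P e D + 1 := by
  unfold ne
  rw [range_add_one, filter_insert, if_pos h, card_insert_of_notMem (by simp)]

/-- The second points. -/
def Ay (P : ℕ → Prop) [DecidablePred P] (e D : ℕ) : Finset ℕ :=
  (Ioc 0 D).filter fun j => ¬ P (6 * j) ∧ ¬ P (6 * (D - j) + e)

/-- The third points. -/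
def Az (P : ℕ → Prop) [DecidablePred P] (e D : ℕ) : Finset ℕ :=
  (range D).filter fun j => ¬ P (6 * j + e) ∧ ¬ P (6 * (D - j))

/-- The bad differences. -/
def Zb (P : ℕ → Prop) [DecidablePred P] (e D : ℕ) : Finset ℤ :=
  (((range D).filter fun k => P (6 * k + e)).image fun j : ℕ => (j : ℤ)) ∪
    (((range D).filter fun k => P (6 * k + (6 - e))).image fun j : ℕ => - (j : ℤ) - 1)

theorem card_Ay (P : ℕ → Prop) [DecidablePred P] (e D : ℕ) :
    D ≤ (Ay P e D).card + nz P D + ne P e D := by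
  classical
  have h1 : Ioc 0 D ⊆ Ay P e D ∪ ((Ioc 0 D).filter fun k => P (6 * k)) ∪
      (((range D).filter fun k => P (6 * k + e)).image fun k => D - k) := by
    intro j hj
    rw [mem_Ioc] at hj
    rw [mem_union, mem_union, mem_filter, mem_image]
    by_cases h2 : P (6 * j)
    · exact Or.inl (Or.inr ⟨mem_Ioc.2 hj, h2⟩)
    · by_cases h3 : P (6 * (D - j) + e)
      · exact Or.inr ⟨D - j, mem_filter.2 ⟨mem_range.2 (by omega), h3⟩, by omega⟩
      · exact Or.inl (Or.inl (mem_filter.2 ⟨mem_Ioc.2 hj, h2, h3⟩))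
  have h2 := card_le_card h1
  rw [Nat.card_Ioc] at h2
  have h3 := card_union_le (Ay P e D ∪ ((Ioc 0 D).filter fun k => P (6 * k)))
    (((range D).filter fun k => P (6 * k + e)).image fun k => D - k)
  have h4 := card_union_le (Ay P e D) ((Ioc 0 D).filter fun k => P (6 * k))
  have h5 := card_image_le (s := (range D).filter fun k => P (6 * k + e)) (f := fun k => D - k)
  unfold nz ne
  omega

theorem card_Az (P : ℕ → Prop) [DecidablePred P] (e D : ℕ) :
    D ≤ (Az P e D).card + nz P D + ne P e D := by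
  classical
  have h1 : range D ⊆ Az P e D ∪ (((Ioc 0 D).filter fun k => P (6 * k)).image fun k => D - k) ∪
      ((range D).filter fun k => P (6 * k + e)) := by
    intro j hj
    rw [mem_range] at hj
    rw [mem_union, mem_union, mem_filter, mem_image]
    by_cases h2 : P (6 * j + e)
    · exact Or.inr ⟨mem_range.2 hj, h2⟩
    · by_cases h3 : P (6 * (D - j))
      · exact Or.inl (Or.inr ⟨D - j, mem_filter.2 ⟨mem_Ioc.2 (by omega), h3⟩, by omega⟩)
      · exact Or.inl (Or.inl (mem_filter.2 ⟨mem_range.2 hj, h2, h3⟩))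
  have h2 := card_le_card h1
  rw [card_range] at h2
  have h3 := card_union_le (Az P e D ∪ (((Ioc 0 D).filter fun k => P (6 * k)).image fun k => D - k))
    ((range D).filter fun k => P (6 * k + e))
  have h4 := card_union_le (Az P e D) (((Ioc 0 D).filter fun k => P (6 * k)).image fun k => D - k)
  have h5 := card_image_le (s := (Ioc 0 D).filter fun k => P (6 * k)) (f := fun k => D - k)
  unfold nz ne
  omega

theorem card_Zb (P : ℕ → Prop) [DecidablePred P] (e D : ℕ) :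
    (Zb P e D).card ≤ ne P e D + ne P (6 - e) D := by
  classical
  unfold Zb
  refine (card_union_le _ _).trans ?_
  exact Nat.add_le_add card_image_le card_image_le

/-- Many pairs of second and third points. -/
theorem pairs (P : ℕ → Prop) [DecidablePred P] (e D T : ℕ) (h : (T : ℤ) ≤ gg P e D) :
    (T / 3) * (T / 3) ≤
      ((Ay P e D ×ˢ Az P e D).filter fun p => ((p.2 : ℤ) - (p.1 : ℤ)) ∉ Zb P e D).card := by
  have h1 := card_Ay P e D
  have h2 := card_Az P e D
  have h3 := card_Zb P e D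
  unfold gg at h
  refine stair _ _ _ _ ?_ ?_ ?_ <;> omega

/-- The classes of the four clusters. -/
def rr (r e : ℕ) : Fin 4 → ℕ := ![r, r, r + e, r + e]

open Classical in
/-- The quadruples without differences in `P`. -/
noncomputable def HH (P : ℕ → Prop) (r e n : ℕ) : Finset (Fin 4 → Fin n) :=
  univ.filter fun x => ∀ i j : Fin 4, i < j →
    6 * (x i : ℕ) + rr r e i ≠ 6 * (x j : ℕ) + rr r e j ∧
      ¬ P (Nat.dist (6 * (x i : ℕ) + rr r e i) (6 * (x j : ℕ) + rr r e j))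

theorem mem_HH (P : ℕ → Prop) (r e n : ℕ) (x : Fin 4 → Fin n) : x ∈ HH P r e n ↔
    ∀ i j : Fin 4, i < j → 6 * (x i : ℕ) + rr r e i ≠ 6 * (x j : ℕ) + rr r e j ∧
      ¬ P (Nat.dist (6 * (x i : ℕ) + rr r e i) (6 * (x j : ℕ) + rr r e j)) := by
  classical
  unfold HH
  rw [mem_filter]
  exact ⟨fun h => h.2, fun h => ⟨mem_univ _, h⟩⟩

theorem quad_mem (P : ℕ → Prop) [DecidablePred P] (r e : ℕ) (he : e = 2 ∨ e = 4) (a D y z : ℕ)
    (hD : ¬ P (6 * D + e)) (hy : y ∈ Ay P e D) (hz : z ∈ Az P e D)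
    (hyz : ((z : ℤ) - (y : ℤ)) ∉ Zb P e D) (i j : Fin 4) (hij : i < j) :
    6 * (![a, a + y, a + z, a + D] i) + rr r e i ≠ 6 * (![a, a + y, a + z, a + D] j) + rr r e j ∧
      ¬ P (Nat.dist (6 * (![a, a + y, a + z, a + D] i) + rr r e i)
        (6 * (![a, a + y, a + z, a + D] j) + rr r e j)) := by
  classical
  unfold Ay at hy
  unfold Az at hz
  rw [mem_filter, mem_Ioc] at hy
  rw [mem_filter, mem_range] at hz
  obtain ⟨⟨hy1, hy2⟩, hy3, hy4⟩ := hy
  obtain ⟨hz1, hz2, hz3⟩ := hz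
  have d01 : Nat.dist (6 * a + r) (6 * (a + y) + r) = 6 * y := by unfold Nat.dist; omega
  have d02 : Nat.dist (6 * a + r) (6 * (a + z) + (r + e)) = 6 * z + e := by
    unfold Nat.dist; omega
  have d03 : Nat.dist (6 * a + r) (6 * (a + D) + (r + e)) = 6 * D + e := by
    unfold Nat.dist; omega
  have d13 : Nat.dist (6 * (a + y) + r) (6 * (a + D) + (r + e)) = 6 * (D - y) + e := by
    unfold Nat.dist; omega
  have d23 : Nat.dist (6 * (a + z) + (r + e)) (6 * (a + D) + (r + e)) = 6 * (D - z) := by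
    unfold Nat.dist; omega
  have d12 : ¬ P (Nat.dist (6 * (a + y) + r) (6 * (a + z) + (r + e))) := by
    intro hP
    apply hyz
    unfold Zb
    rw [mem_union, mem_image, mem_image]
    rcases le_or_gt y z with h | h
    · have h1 : Nat.dist (6 * (a + y) + r) (6 * (a + z) + (r + e)) = 6 * (z - y) + e := by
        unfold Nat.dist; omega
      rw [h1] at hP
      exact Or.inl ⟨z - y, mem_filter.2 ⟨mem_range.2 (by omega), hP⟩, by omega⟩
    · have h1 : Nat.dist (6 * (a + y) + r) (6 * (a + z) + (r + e)) =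
          6 * (y - z - 1) + (6 - e) := by
        unfold Nat.dist; omega
      rw [h1] at hP
      exact Or.inr ⟨y - z - 1, mem_filter.2 ⟨mem_range.2 (by omega), hP⟩, by omega⟩
  fin_cases i <;> fin_cases j
  · exact absurd hij (by decide)
  · show 6 * a + r ≠ 6 * (a + y) + r ∧ ¬ P (Nat.dist (6 * a + r) (6 * (a + y) + r))
    rw [d01]
    exact ⟨by omega, hy3⟩
  · show 6 * a + r ≠ 6 * (a + z) + (r + e) ∧ ¬ P (Nat.dist (6 * a + r) (6 * (a + z) + (r + e)))
    rw [d02]
    exact ⟨by omega, hz2⟩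
  · show 6 * a + r ≠ 6 * (a + D) + (r + e) ∧ ¬ P (Nat.dist (6 * a + r) (6 * (a + D) + (r + e)))
    rw [d03]
    exact ⟨by omega, hD⟩
  · exact absurd hij (by decide)
  · exact absurd hij (by decide)
  · show 6 * (a + y) + r ≠ 6 * (a + z) + (r + e) ∧
      ¬ P (Nat.dist (6 * (a + y) + r) (6 * (a + z) + (r + e)))
    exact ⟨by omega, d12⟩
  · show 6 * (a + y) + r ≠ 6 * (a + D) + (r + e) ∧
      ¬ P (Nat.dist (6 * (a + y) + r) (6 * (a + D) + (r + e)))
    rw [d13]
    exact ⟨by omega, hy4⟩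
  · exact absurd hij (by decide)
  · exact absurd hij (by decide)
  · exact absurd hij (by decide)
  · show 6 * (a + z) + (r + e) ≠ 6 * (a + D) + (r + e) ∧
      ¬ P (Nat.dist (6 * (a + z) + (r + e)) (6 * (a + D) + (r + e)))
    rw [d23]
    exact ⟨by omega, hz3⟩
  · exact absurd hij (by decide)
  · exact absurd hij (by decide)
  · exact absurd hij (by decide)
  · exact absurd hij (by decide)

theorem quad_count (P : ℕ → Prop) [DecidablePred P] (r e : ℕ) (he : e = 2 ∨ e = 4) (V T : ℕ) :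
    V * ((range V).filter fun D => ¬ P (6 * D + e) ∧ (T : ℤ) ≤ gg P e D).card *
      ((T / 3) * (T / 3)) ≤ (HH P r e (2 * V)).card := by
  classical
  obtain ⟨DD, hDD⟩ : ∃ DD, DD = (range V).filter fun D => ¬ P (6 * D + e) ∧ (T : ℤ) ≤ gg P e D :=
    ⟨_, rfl⟩
  rw [← hDD]
  obtain ⟨S, hS⟩ : ∃ S : Finset (Σ _ : ℕ × ℕ, ℕ × ℕ), S = (range V ×ˢ DD).sigma fun p =>
      (Ay P e p.2 ×ˢ Az P e p.2).filter fun q => ((q.2 : ℤ) - (q.1 : ℤ)) ∉ Zb P e p.2 := ⟨_, rfl⟩
  have h1 : V * DD.card * ((T / 3) * (T / 3)) ≤ S.card := by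
    rw [hS, card_sigma]
    have h2 : V * DD.card * ((T / 3) * (T / 3)) =
        ∑ _p ∈ range V ×ˢ DD, (T / 3) * (T / 3) := by
      rw [sum_const, card_product, card_range, smul_eq_mul]
    rw [h2]
    refine sum_le_sum fun p hp => ?_
    have h3 := (mem_product.1 hp).2
    rw [hDD, mem_filter] at h3
    exact pairs P e p.2 T h3.2.2
  refine h1.trans ?_
  have hS' : ∀ s ∈ S, s.1.1 < V ∧ s.1.2 < V ∧ ¬ P (6 * s.1.2 + e) ∧ s.2.1 ∈ Ay P e s.1.2 ∧
      s.2.2 ∈ Az P e s.1.2 ∧ ((s.2.2 : ℤ) - (s.2.1 : ℤ)) ∉ Zb P e s.1.2 := by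
    intro s hs
    rw [hS, mem_sigma, mem_product, hDD, mem_filter, mem_range, mem_range, mem_filter,
      mem_product] at hs
    exact ⟨hs.1.1, hs.1.2.1, hs.1.2.2.1, hs.2.1.1, hs.2.1.2, hs.2.2⟩
  have hyD : ∀ {D y : ℕ}, y ∈ Ay P e D → y ≤ D := by
    intro D y hy
    exact (mem_Ioc.1 (mem_filter.1 hy).1).2
  have hzD : ∀ {D z : ℕ}, z ∈ Az P e D → z < D := by
    intro D z hz
    exact mem_range.1 (mem_filter.1 hz).1
  rcases Nat.eq_zero_or_pos V with hV | hV
  · have : S = ∅ := by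
      rw [eq_empty_iff_forall_notMem]
      intro s hs
      have := (hS' s hs).1
      omega
    rw [this, card_empty]
    exact Nat.zero_le _
  have h2V : 0 < 2 * V := by omega
  obtain ⟨F, hF⟩ : ∃ F : (Σ _ : ℕ × ℕ, ℕ × ℕ) → (Fin 4 → Fin (2 * V)), F = fun s i =>
      ⟨(![s.1.1, s.1.1 + s.2.1, s.1.1 + s.2.2, s.1.1 + s.1.2] i) % (2 * V), Nat.mod_lt _ h2V⟩ :=
    ⟨_, rfl⟩
  have hFv : ∀ s ∈ S, ∀ i, ((F s i : Fin (2 * V)) : ℕ) =
      ![s.1.1, s.1.1 + s.2.1, s.1.1 + s.2.2, s.1.1 + s.1.2] i := by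
    intro s hs i
    obtain ⟨a1, a2, a3, a4, a5, a6⟩ := hS' s hs
    have b1 := hyD a4
    have b2 := hzD a5
    rw [hF]
    show (![s.1.1, s.1.1 + s.2.1, s.1.1 + s.2.2, s.1.1 + s.1.2] i) % (2 * V) = _
    refine Nat.mod_eq_of_lt ?_
    fin_cases i
    · show s.1.1 < 2 * V
      omega
    · show s.1.1 + s.2.1 < 2 * V
      omega
    · show s.1.1 + s.2.2 < 2 * V
      omega
    · show s.1.1 + s.1.2 < 2 * V
      omega
  refine card_le_card_of_injOn F ?_ ?_
  · intro s hs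
    have hs' : s ∈ S := mem_coe.1 hs
    obtain ⟨a1, a2, a3, a4, a5, a6⟩ := hS' s hs'
    refine mem_coe.2 ((mem_HH _ _ _ _ _).2 fun i j hij => ?_)
    rw [hFv s hs' i, hFv s hs' j]
    exact quad_mem P r e he s.1.1 s.1.2 s.2.1 s.2.2 a3 a4 a5 a6 i j hij
  · intro s hs t ht hst
    have hs' : s ∈ S := mem_coe.1 hs
    have ht' : t ∈ S := mem_coe.1 ht
    have key : ∀ i, ![s.1.1, s.1.1 + s.2.1, s.1.1 + s.2.2, s.1.1 + s.1.2] i =
        ![t.1.1, t.1.1 + t.2.1, t.1.1 + t.2.2, t.1.1 + t.1.2] i := by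
      intro i
      rw [← hFv s hs' i, ← hFv t ht' i, hst]
    have k0 : s.1.1 = t.1.1 := key 0
    have k1 : s.1.1 + s.2.1 = t.1.1 + t.2.1 := key 1
    have k2 : s.1.1 + s.2.2 = t.1.1 + t.2.2 := key 2
    have k3 : s.1.1 + s.1.2 = t.1.1 + t.1.2 := key 3
    obtain ⟨⟨s1, s2⟩, s3, s4⟩ := s
    obtain ⟨⟨t1, t2⟩, t3, t4⟩ := t
    dsimp only at k0 k1 k2 k3
    have e1 : s1 = t1 := k0
    have e2 : s2 = t2 := by omega
    have e3 : s3 = t3 := by omega
    have e4 : s4 = t4 := by omega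
    rw [e1, e2, e3, e4]

/-- Clusters from many quadruples. -/
theorem no_many (L : ℕ) (c : ℝ) (hc : 0 < c) : ∃ n₀ : ℕ, ∀ P : ℕ → Prop, CluP 3 L P →
    ∀ r e : ℕ, (r = 5 ∧ e = 2) ∨ (r = 1 ∧ e = 4) → ∀ n : ℕ, n₀ ≤ n →
      ((HH P r e n).card : ℝ) < c * (n : ℝ) ^ 4 := by
  classical
  obtain ⟨M, hMd⟩ : ∃ M, M = primorial (4 * L + 5) := ⟨_, rfl⟩
  have hMp : ∀ p : ℕ, p.Prime → p ≤ 4 * L + 5 → p ∣ M := by
    intro p hp hpD
    rw [hMd]
    unfold primorial
    exact Finset.dvd_prod_of_mem (fun p => p) (mem_filter.2 ⟨mem_range.2 (by omega), hp⟩)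
  have hM0 : 0 < M := by
    rw [hMd]
    unfold primorial
    exact Finset.prod_pos fun p hp => (mem_filter.1 hp).2.pos
  obtain ⟨n₀, hn₀⟩ := PoolCmb.box (M * L) 4 c hc
  refine ⟨n₀, fun P hP r e hre n hn => ?_⟩
  by_contra hno
  push Not at hno
  obtain ⟨A, hA, hA2⟩ := hn₀ n hn (HH P r e n) hno
  -- one class modulo `M` in each part
  have hcl : ∀ k : Fin 4, ∃ (ρ : ℕ) (ι : Fin L → Fin (M * L)), Function.Injective ι ∧
      ∀ j, (A k (ι j) : ℕ) % M = ρ := by
    intro k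
    obtain ⟨ρ, -, hρ⟩ := Finset.exists_le_card_fiber_of_mul_le_card_of_maps_to
      (s := (Finset.univ : Finset (Fin (M * L)))) (t := range M)
      (f := fun j => (A k j : ℕ) % M) (n := L)
      (fun j _ => mem_range.2 (Nat.mod_lt _ hM0)) ⟨0, mem_range.2 hM0⟩
      (by rw [card_range, card_univ, Fintype.card_fin])
    obtain ⟨t, ht, htc⟩ := Finset.exists_subset_card_eq hρ
    refine ⟨ρ, fun j => t.orderEmbOfFin htc j, (t.orderEmbOfFin htc).injective, fun j => ?_⟩
    have h1 := ht (t.orderEmbOfFin_mem htc j)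
    exact (mem_filter.1 h1).2
  choose ρ ι hι hρ using hcl
  obtain ⟨h, hh⟩ : ∃ h : Fin (3 + 1) × Fin L → ℕ,
      h = fun u => 6 * (A u.1 (ι u.1 u.2) : ℕ) + rr r e u.1 := ⟨_, rfl⟩
  have hval : ∀ u, h u = 6 * (A u.1 (ι u.1 u.2) : ℕ) + rr r e u.1 := fun u => by rw [hh]
  have hpair : ∀ u v : Fin (3 + 1) × Fin L, u.1 < v.1 →
      h u ≠ h v ∧ ¬ P (Nat.dist (h u) (h v)) := by
    intro u v huv
    have h1 := (mem_HH _ _ _ _ _).1 (hA2 (fun k => if k = u.1 then ι u.1 u.2 else ι v.1 v.2))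
      u.1 v.1 huv
    simp only [if_true, if_neg huv.ne'] at h1
    rw [← hval, ← hval] at h1
    exact h1
  have hinj : Function.Injective h := by
    intro u v huv
    rcases lt_trichotomy u.1 v.1 with h1 | h1 | h1
    · exact absurd huv (hpair u v h1).1
    · rw [hval, hval, ← h1] at huv
      have h2 : (A u.1 (ι u.1 u.2) : ℕ) = (A u.1 (ι u.1 v.2) : ℕ) := by omega
      exact Prod.ext h1 (hι _ (hA _ (Fin.ext h2)))
    · exact absurd huv.symm (hpair v u h1).1
  have hrr : ∀ k : Fin 4, rr r e k % 6 = 1 ∨ rr r e k % 6 = 5 := by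
    intro k
    rcases hre with ⟨rfl, rfl⟩ | ⟨rfl, rfl⟩ <;> fin_cases k <;> decide
  have hadm : Admissible (Finset.univ.image h) := by
    intro p hp
    by_cases hp3 : p ≤ 3
    · have hp23 : p = 2 ∨ p = 3 := by
        have := hp.two_le
        omega
      refine ⟨0, fun x hx hd => ?_⟩
      obtain ⟨u, -, rfl⟩ := Finset.mem_image.1 hx
      rw [zero_add, hval] at hd
      have h2 := hrr u.1
      have h3 := Nat.mod_eq_zero_of_dvd hd
      rcases hp23 with rfl | rfl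
      · omega
      · omega
    · push Not at hp3
      have hp5 : 5 ≤ p := by
        by_contra h
        have h4 : p = 4 := by omega
        subst h4
        exact absurd hp (by norm_num)
      refine exists_uncovered _ p hp.pos ?_
      rw [Finset.image_image]
      by_cases hpL : p ≤ 4 * L + 5
      · have h1 : (Finset.univ.image ((fun x => x % p) ∘ h)) ⊆
            (Finset.univ : Finset (Fin (3 + 1))).image
              (fun k : Fin (3 + 1) => (6 * ρ k + rr r e k) % p) := by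
          intro x hx
          obtain ⟨u, -, rfl⟩ := Finset.mem_image.1 hx
          refine Finset.mem_image.2 ⟨u.1, Finset.mem_univ _, ?_⟩
          show (6 * ρ u.1 + rr r e u.1) % p = h u % p
          rw [hval]
          have h2 : ρ u.1 ≡ (A u.1 (ι u.1 u.2) : ℕ) [MOD p] := by
            have h3 : (A u.1 (ι u.1 u.2) : ℕ) % M ≡ (A u.1 (ι u.1 u.2) : ℕ) [MOD M] :=
              Nat.mod_modEq _ _
            rw [hρ u.1 u.2] at h3
            exact h3.of_dvd (hMp p hp hpL)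
          exact Nat.ModEq.add_right _ (h2.mul_left 6)
        have h2 := Finset.card_le_card h1
        have h3 := Finset.card_image_le (s := (Finset.univ : Finset (Fin (3 + 1))))
          (f := fun k : Fin (3 + 1) => (6 * ρ k + rr r e k) % p)
        rw [Finset.card_univ, Fintype.card_fin] at h3
        omega
      · have h3 := Finset.card_image_le (s := (Finset.univ : Finset (Fin (3 + 1) × Fin L)))
          (f := (fun x => x % p) ∘ h)
        rw [Finset.card_univ, Fintype.card_prod, Fintype.card_fin, Fintype.card_fin] at h3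
        omega
  obtain ⟨u, v, huv, hPuv⟩ := hP h hinj hadm
  exact (hpair u v huv).2 hPuv

/-- The walk at the end. -/
theorem gg_bound (P : ℕ → Prop) [DecidablePred P] (e V T : ℕ)
    (hem : ne P e V ≤ ne P (6 - e) V) :
    2 * (V : ℤ) - 2 * ((nz P V : ℤ) + ne P e V + ne P (6 - e) V) ≤
      T + 2 + 2 * (((range V).filter fun D => ¬ P (6 * D + e) ∧ (T : ℤ) ≤ gg P e D).card : ℤ) := by
  have h := walk (fun D => P (6 * D + e)) (gg P e) (by simp [gg, nz, ne]) (by
      intro D hD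
      have h1 := nz_mono P D
      have h2 := ne_succ P e D hD
      have h3 := ne_mono P (6 - e) D
      unfold gg
      push_cast
      omega) (by
      intro D _
      have h1 := nz_mono P D
      have h2 := ne_mono P e D
      have h3 := ne_mono P (6 - e) D
      unfold gg
      push_cast
      omega) T (Nat.cast_nonneg _) V
  refine le_trans ?_ h
  unfold gg
  have h4 : (ne P e V : ℤ) ≤ (ne P (6 - e) V : ℤ) := by exact_mod_cast hem
  linarith

theorem classes (P : ℕ → Prop) [DecidablePred P] (e V ℓ : ℕ) (he : e = 2 ∨ e = 4)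
    (hV : 6 * V ≤ ℓ) : nz P V + ne P e V + ne P (6 - e) V ≤ ((Ioc 0 ℓ).filter P).card := by
  classical
  have h1 : (((Ioc 0 V).filter fun k => P (6 * k)).image fun k => 6 * k) ∪
      (((range V).filter fun k => P (6 * k + e)).image fun k => 6 * k + e) ∪
      (((range V).filter fun k => P (6 * k + (6 - e))).image fun k => 6 * k + (6 - e)) ⊆
      (Ioc 0 ℓ).filter P := by
    intro m hm
    rw [mem_union, mem_union, mem_image, mem_image, mem_image] at hm
    rw [mem_filter, mem_Ioc]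
    rcases hm with (⟨k, hk, rfl⟩ | ⟨k, hk, rfl⟩) | ⟨k, hk, rfl⟩
    · rw [mem_filter, mem_Ioc] at hk
      exact ⟨by omega, hk.2⟩
    · rw [mem_filter, mem_range] at hk
      exact ⟨by omega, hk.2⟩
    · rw [mem_filter, mem_range] at hk
      exact ⟨by omega, hk.2⟩
  have h2 := card_le_card h1
  rw [card_union_of_disjoint, card_union_of_disjoint, card_image_of_injective,
    card_image_of_injective, card_image_of_injective] at h2
  · exact h2
  · intro x y hxy
    have : 6 * x + (6 - e) = 6 * y + (6 - e) := hxy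
    omega
  · intro x y hxy
    have : 6 * x + e = 6 * y + e := hxy
    omega
  · intro x y hxy
    have : 6 * x = 6 * y := hxy
    omega
  · rw [disjoint_left]
    intro m hm hm'
    rw [mem_image] at hm hm'
    obtain ⟨k, _, rfl⟩ := hm
    obtain ⟨j, _, hj⟩ := hm'
    omega
  · rw [disjoint_left]
    intro m hm hm'
    rw [mem_union, mem_image, mem_image] at hm
    rw [mem_image] at hm'
    obtain ⟨j, _, hj⟩ := hm'
    rcases hm with ⟨k, _, rfl⟩ | ⟨k, _, rfl⟩ <;> omega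

/-- A third of the even numbers of every initial interval, uniformly in the predicate. -/
theorem third_unif (L : ℕ) (ε : ℝ) (hε : 0 < ε) : ∃ ℓ₀ : ℕ, ∀ (P : ℕ → Prop) [DecidablePred P],
    CluP 3 L P → ∀ ℓ : ℕ, ℓ₀ ≤ ℓ →
      (1 / 6 - ε) * (ℓ : ℝ) ≤ (((Ioc 0 ℓ).filter P).card : ℝ) := by
  classical
  obtain ⟨n₀, hn₀⟩ := no_many L (ε ^ 3 / 576) (by positivity)
  obtain ⟨N, hN⟩ := exists_nat_ge (6 / ε)
  refine ⟨6 * (n₀ + N + 1), fun P _ hP ℓ hℓ => ?_⟩
  rcases lt_or_ge (1 / 6) ε with hbig | hsmall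
  · have h1 : (1 / 6 - ε) * (ℓ : ℝ) ≤ 0 :=
      mul_nonpos_of_nonpos_of_nonneg (by linarith) (Nat.cast_nonneg _)
    exact h1.trans (Nat.cast_nonneg _)
  by_contra hno
  push Not at hno
  obtain ⟨V, hV⟩ : ∃ V, V = ℓ / 6 := ⟨_, rfl⟩
  have hV1 : 6 * V ≤ ℓ := by omega
  have hV2 : ℓ < 6 * V + 6 := by omega
  have hV3 : n₀ + N + 1 ≤ V := by omega
  have hV2r : (ℓ : ℝ) ≤ 6 * V + 6 := by exact_mod_cast hV2.le
  have hVN : 6 / ε ≤ (V : ℝ) := hN.trans (by exact_mod_cast (by omega : N ≤ V))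
  have hεV : 6 ≤ ε * V := by
    rw [div_le_iff₀ hε] at hVN
    linarith
  obtain ⟨r, e, hre, hem⟩ : ∃ r e : ℕ, ((r = 5 ∧ e = 2) ∨ (r = 1 ∧ e = 4)) ∧
      ne P e V ≤ ne P (6 - e) V := by
    rcases le_total (ne P 2 V) (ne P 4 V) with h | h
    · exact ⟨5, 2, Or.inl ⟨rfl, rfl⟩, h⟩
    · exact ⟨1, 4, Or.inr ⟨rfl, rfl⟩, h⟩
  have he : e = 2 ∨ e = 4 := by
    rcases hre with h | h
    · exact Or.inl h.2
    · exact Or.inr h.2
  obtain ⟨T, hT⟩ : ∃ T, T = ⌊ε * (V : ℝ)⌋₊ := ⟨_, rfl⟩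
  have hT1 : (T : ℝ) ≤ ε * V := by
    rw [hT]
    exact Nat.floor_le (by positivity)
  have hT2 : ε * V < T + 1 := by
    rw [hT]
    exact Nat.lt_floor_add_one _
  have hg := gg_bound P e V T hem
  have hcls := classes P e V ℓ he hV1
  have hq := quad_count P r e he V T
  have hub := hn₀ P hP r e hre (2 * V) (by omega)
  obtain ⟨δ, hδ⟩ : ∃ δ : ℕ, δ = ((range V).filter fun D => ¬ P (6 * D + e) ∧
    (T : ℤ) ≤ gg P e D).card := ⟨_, rfl⟩
  rw [← hδ] at hg hq
  have hgr : 2 * (V : ℝ) - 2 * ((nz P V : ℝ) + ne P e V + ne P (6 - e) V) ≤ T + 2 + 2 * (δ : ℝ) := by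
    exact_mod_cast hg
  have hclsr : (nz P V : ℝ) + ne P e V + ne P (6 - e) V ≤ (((Ioc 0 ℓ).filter P).card : ℝ) := by
    exact_mod_cast hcls
  have h1 : (1 / 6 - ε) * (ℓ : ℝ) ≤ (1 - 6 * ε) * V + 1 := by
    have h2 : (1 / 6 - ε) * (ℓ : ℝ) ≤ (1 / 6 - ε) * (6 * V + 6) :=
      mul_le_mul_of_nonneg_left hV2r (by linarith)
    linarith
  have hδ1 : ε * V ≤ δ := by
    nlinarith
  have hk : ε * V / 6 ≤ ((T / 3 : ℕ) : ℝ) := by
    have h2 : T ≤ 3 * (T / 3) + 2 := by omega
    have h3 : (T : ℝ) ≤ 3 * ((T / 3 : ℕ) : ℝ) + 2 := by exact_mod_cast h2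
    linarith
  have hqr : (V : ℝ) * δ * (((T / 3 : ℕ) : ℝ) * ((T / 3 : ℕ) : ℝ)) ≤
      ((HH P r e (2 * V)).card : ℝ) := by
    exact_mod_cast hq
  have hpos : 0 < ε * V / 6 := by linarith
  have h4 : (V : ℝ) * (ε * V) * ((ε * V / 6) * (ε * V / 6)) ≤
      (V : ℝ) * δ * (((T / 3 : ℕ) : ℝ) * ((T / 3 : ℕ) : ℝ)) := by
    refine mul_le_mul (mul_le_mul_of_nonneg_left hδ1 (Nat.cast_nonneg _))
      (mul_le_mul hk hk hpos.le (Nat.cast_nonneg _)) (by positivity) (by positivity)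
  have h5 : (V : ℝ) * (ε * V) * ((ε * V / 6) * (ε * V / 6)) =
      ε ^ 3 / 576 * ((2 * V : ℕ) : ℝ) ^ 4 := by
    push_cast
    ring
  linarith

end PoolPol
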